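import Pool.Agent.Y598.IM.Sp.Rand

/-!
# The kernel of a random sparse system is small
-/

set_option autoImplicit false
set_option linter.unusedSectionVars false

namespace Pool.Agent.Y598.IM.Sp

open Finset

variable {F : Type} [Field F] [Fintype F] [DecidableEq F] {N m : ℕ}

theorem card_slice (j0 : Fin 6) (A : Finset (Fin N)) :
    N * (Finset.univ.filter fun r : Row F N => r.1 j0 ∈ A).card =
      A.card * Fintype.card (Row F N) := by
  classical
  have h1 : (Finset.univ.filter fun r : Row F N => r.1 j0 ∈ A) =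
      (Fintype.piFinset fun j => if j = j0 then A else Finset.univ) ×ˢ
        (Finset.univ : Finset (Fin 6 → Fˣ)) := by
    ext r
    rw [Finset.mem_filter, Finset.mem_product, Fintype.mem_piFinset]
    constructor
    · rintro ⟨_, h⟩
      refine ⟨fun j => ?_, Finset.mem_univ _⟩
      by_cases hj : j = j0
      · rw [if_pos hj, hj]
        exact h
      · rw [if_neg hj]
        exact Finset.mem_univ _
    · rintro ⟨h, _⟩
      have := h j0
      rw [if_pos rfl] at this
      exact ⟨Finset.mem_univ _, this⟩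
  rw [h1, Finset.card_product, Fintype.card_piFinset, Finset.card_univ (α := Fin 6 → Fˣ),
    Fintype.card_prod, Fintype.card_fun (β := Fin N), Fintype.card_fin, Fintype.card_fin,
    ← Finset.mul_prod_erase Finset.univ _ (Finset.mem_univ j0), if_pos rfl]
  have h2 : ∀ j ∈ Finset.univ.erase j0,
      (if j = j0 then A else (Finset.univ : Finset (Fin N))).card = N := by
    intro j hj
    rw [if_neg (Finset.ne_of_mem_erase hj), Finset.card_univ, Fintype.card_fin]
  rw [Finset.prod_congr rfl h2, Finset.prod_const, Finset.card_erase_of_mem (Finset.mem_univ _),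
    Finset.card_univ, Fintype.card_fin]
  ring

/-- Many rows do not kill a vector with large support. -/
theorem kill_bound (hF : (2 : F) ≠ 0) (x : Fin 6 × Fin N → F) :
    12 * N * (Finset.univ.filter fun r : Row F N => rval r x = 0).card +
      (Finset.univ.filter fun e => x e ≠ 0).card * Fintype.card (Row F N) ≤
      12 * N * Fintype.card (Row F N) := by
  classical
  obtain ⟨w, hw⟩ : ∃ w, w = (Finset.univ.filter fun e => x e ≠ 0).card := ⟨_, rfl⟩
  have hsum : ∑ _j : Fin 6, w ≤ ∑ j : Fin 6, 6 * (Finset.univ.filter fun y => x (j, y) ≠ 0).card := by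
    rw [Finset.sum_const, Finset.card_univ, Fintype.card_fin, smul_eq_mul, ← Finset.mul_sum]
    refine Nat.mul_le_mul_left _ ?_
    rw [hw, Finset.card_filter, Fintype.sum_prod_type]
    refine Finset.sum_le_sum fun j _ => ?_
    rw [Finset.card_filter]
  obtain ⟨j0, _, hj0⟩ := Finset.exists_le_of_sum_le Finset.univ_nonempty hsum
  rw [← hw]
  let S : Finset (Row F N) := Finset.univ.filter fun r : Row F N =>
    r.1 j0 ∈ Finset.univ.filter fun y => x (j0, y) ≠ 0
  let K : Finset (Row F N) := Finset.univ.filter fun r : Row F N => rval r x = 0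
  have hS : N * S.card = (Finset.univ.filter fun y => x (j0, y) ≠ 0).card *
      Fintype.card (Row F N) := card_slice j0 _
  let u2 : Fˣ := Units.mk0 2 hF
  let φ : Row F N → Row F N := fun r => (r.1, Function.update r.2 j0 (u2 * r.2 j0))
  have hφ : Function.Injective φ := by
    intro r r' h
    have h1 : (φ r).1 = (φ r').1 := congrArg Prod.fst h
    have h2 : (φ r).2 = (φ r').2 := congrArg Prod.snd h
    have h1 : r.1 = r'.1 := h1
    have h2 : Function.update r.2 j0 (u2 * r.2 j0) = Function.update r'.2 j0 (u2 * r'.2 j0) := h2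
    refine Prod.ext h1 ?_
    funext j
    have h3 := congrFun h2 j
    by_cases hj : j = j0
    · rw [hj, Function.update_self, Function.update_self] at h3
      rw [hj]
      exact mul_left_cancel h3
    · rwa [Function.update_of_ne hj, Function.update_of_ne hj] at h3
  have hval : ∀ r : Row F N, rval (φ r) x = rval r x + (r.2 j0 : F) * x (j0, r.1 j0) := by
    intro r
    unfold rval
    rw [← Finset.add_sum_erase Finset.univ _ (Finset.mem_univ j0),
      ← Finset.add_sum_erase Finset.univ (fun j => (r.2 j : F) * x (j, r.1 j)) (Finset.mem_univ j0)]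
    have h1 : ∑ j ∈ Finset.univ.erase j0, ((φ r).2 j : F) * x (j, (φ r).1 j) =
        ∑ j ∈ Finset.univ.erase j0, (r.2 j : F) * x (j, r.1 j) := by
      refine Finset.sum_congr rfl fun j hj => ?_
      show ((Function.update r.2 j0 (u2 * r.2 j0)) j : F) * x (j, r.1 j) = _
      rw [Function.update_of_ne (Finset.ne_of_mem_erase hj)]
    have h2 : ((φ r).2 j0 : F) * x (j0, (φ r).1 j0) = 2 * ((r.2 j0 : F) * x (j0, r.1 j0)) := by
      show ((Function.update r.2 j0 (u2 * r.2 j0)) j0 : F) * x (j0, r.1 j0) = _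
      rw [Function.update_self, Units.val_mul, mul_assoc]
      rfl
    rw [h1, h2]
    ring
  have h1 : (K ∩ S).card ≤ (S \ K).card := by
    refine Finset.card_le_card_of_injOn φ ?_ hφ.injOn
    intro r hr
    obtain ⟨hrK, hrS⟩ := Finset.mem_inter.1 (Finset.mem_coe.1 hr)
    have h2 := (Finset.mem_filter.1 hrK).2
    have h3 := (Finset.mem_filter.1 hrS).2
    have h4 := (Finset.mem_filter.1 h3).2
    rw [Finset.mem_coe, Finset.mem_sdiff]
    refine ⟨Finset.mem_filter.2 ⟨Finset.mem_univ _, h3⟩, fun h5 => ?_⟩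
    have h6 := (Finset.mem_filter.1 h5).2
    rw [hval, h2, zero_add] at h6
    rcases mul_eq_zero.1 h6 with h7 | h7
    · exact Units.ne_zero _ h7
    · exact h4 h7
  have h2 : (S \ K).card + (S ∩ K).card = S.card := Finset.card_sdiff_add_card_inter S K
  have h3 : K.card ≤ (K ∩ S).card + (Finset.univ \ S).card := by
    refine le_trans (Finset.card_le_card ?_) (Finset.card_union_le _ _)
    intro r hr
    by_cases h : r ∈ S
    · exact Finset.mem_union_left _ (Finset.mem_inter.2 ⟨hr, h⟩)
    · exact Finset.mem_union_right _ (Finset.mem_sdiff.2 ⟨Finset.mem_univ _, h⟩)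
  have h4 : (Finset.univ \ S).card + S.card = Fintype.card (Row F N) := by
    rw [Finset.card_sdiff_add_card_eq_card (Finset.subset_univ _), Finset.card_univ]
  rw [Finset.inter_comm S K] at h2
  have h5 : 2 * K.card + S.card ≤ 2 * Fintype.card (Row F N) := by omega
  obtain ⟨R, hR⟩ : ∃ R, R = Fintype.card (Row F N) := ⟨_, rfl⟩
  obtain ⟨a, ha⟩ : ∃ a, a = (Finset.univ.filter fun y => x (j0, y) ≠ 0).card := ⟨_, rfl⟩
  rw [← hR, ← ha] at hS
  rw [← ha] at hj0
  rw [← hR] at h5 ⊢
  calc 12 * N * K.card + w * R ≤ 12 * N * K.card + 6 * a * R :=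
        Nat.add_le_add_left (Nat.mul_le_mul_right _ hj0) _
    _ = 6 * N * (2 * K.card + S.card) := by
      rw [mul_assoc 6 a R, ← hS]
      ring
    _ ≤ 6 * N * (2 * R) := Nat.mul_le_mul_left _ h5
    _ = 12 * N * R := by ring

/-- The number of solutions of all homogeneous systems together. -/
theorem sum_ker {c k : ℕ} (hF : (2 : F) ≠ 0) (hN : 0 < N) (hm : m = 12 * c * N)
    (hck : 6 * N * Fintype.card F ≤ k * 2 ^ c) :
    ((∑ ω : Fin m → Row F N, (Finset.univ.filter fun x : Fin 6 × Fin N → F =>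
      ∀ v, rval (ω v) x = 0).card : ℕ) : ℝ) ≤
      Fintype.card (Fin m → Row F N) * Real.exp k := by
  classical
  have h1 : ∑ ω : Fin m → Row F N, (Finset.univ.filter fun x : Fin 6 × Fin N → F =>
      ∀ v, rval (ω v) x = 0).card = ∑ x : Fin 6 × Fin N → F,
        (Finset.univ.filter fun r : Row F N => rval r x = 0).card ^ m := by
    simp only [Finset.card_filter]
    rw [Finset.sum_comm]
    refine Finset.sum_congr rfl fun x _ => ?_
    rw [← Finset.card_filter, ← Finset.card_filter]
    have h2 := card_forall_mem (m := m) (Finset.univ : Finset (Fin m))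
      (Finset.univ.filter fun r : Row F N => rval r x = 0)
    rw [Finset.card_univ, Fintype.card_fin, Nat.sub_self, pow_zero, mul_one] at h2
    rw [← h2]
    congr 1
    ext ω
    simp only [Finset.mem_filter, Finset.mem_univ, true_and, forall_true_left]
  rw [h1, Nat.cast_sum]
  obtain ⟨R, hR⟩ : ∃ R : ℝ, R = (Fintype.card (Row F N) : ℝ) := ⟨_, rfl⟩
  have hR0 : 0 ≤ R := by
    rw [hR]
    exact Nat.cast_nonneg _
  have hN' : (0 : ℝ) < N := by exact_mod_cast hN
  have h2 : ∀ x : Fin 6 × Fin N → F,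
      (((Finset.univ.filter fun r : Row F N => rval r x = 0).card ^ m : ℕ) : ℝ) ≤
        R ^ m * ∏ e, (if x e ≠ 0 then Real.exp (-c) else 1) := by
    intro x
    obtain ⟨w, hw⟩ : ∃ w, w = (Finset.univ.filter fun e => x e ≠ 0).card := ⟨_, rfl⟩
    have h3 := kill_bound (N := N) hF x
    rw [← hw] at h3
    obtain ⟨K, hK⟩ : ∃ K, K = (Finset.univ.filter fun r : Row F N => rval r x = 0).card :=
      ⟨_, rfl⟩
    rw [← hK] at h3 ⊢
    have h4 : (12 * N * K + w * R : ℝ) ≤ 12 * N * R := by
      rw [hR]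
      exact_mod_cast h3
    have h5 : (K : ℝ) ≤ R * Real.exp (-(w / (12 * N))) := by
      have h6 : (K : ℝ) ≤ R * (1 - w / (12 * N)) := by
        have h7 : (K : ℝ) * (12 * N) ≤ R * (1 - w / (12 * N)) * (12 * N) := by
          have : R * (1 - w / (12 * N)) * (12 * N) = 12 * N * R - w * R := by
            field_simp
          rw [this]
          linarith
        exact le_of_mul_le_mul_right h7 (by positivity)
      refine h6.trans (mul_le_mul_of_nonneg_left ?_ hR0)
      have := Real.add_one_le_exp (-((w : ℝ) / (12 * N)))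
      linarith
    have h6 : ((K : ℝ)) ^ m ≤ (R * Real.exp (-(w / (12 * N)))) ^ m :=
      pow_le_pow_left₀ (Nat.cast_nonneg _) h5 m
    rw [Nat.cast_pow]
    refine h6.trans (le_of_eq ?_)
    rw [mul_pow]
    congr 1
    rw [Finset.prod_ite, Finset.prod_const, Finset.prod_const, one_pow, mul_one, ← hw,
      ← Real.exp_nat_mul, ← Real.exp_nat_mul]
    congr 1
    rw [hm]
    push_cast
    field_simp
  refine (Finset.sum_le_sum fun x _ => h2 x).trans ?_
  rw [← Finset.mul_sum]
  have h3 : ∑ x : Fin 6 × Fin N → F, ∏ e, (if x e ≠ 0 then Real.exp (-c) else 1) =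
      ∏ _e : Fin 6 × Fin N, ∑ y : F, (if y ≠ 0 then Real.exp (-c) else 1) := by
    rw [Finset.prod_univ_sum, Fintype.piFinset_univ]
  rw [h3, Finset.prod_const, Finset.card_univ, Fintype.card_prod, Fintype.card_fin,
    Fintype.card_fin]
  have h4 : ∑ y : F, (if y ≠ 0 then Real.exp (-c) else (1 : ℝ)) ≤
      Real.exp (Fintype.card F * Real.exp (-c)) := by
    rw [← Finset.add_sum_erase Finset.univ _ (Finset.mem_univ (0 : F)), if_neg (by simp)]
    have h5 : ∑ y ∈ Finset.univ.erase (0 : F), (if y ≠ 0 then Real.exp (-c) else (1 : ℝ)) ≤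
        Fintype.card F * Real.exp (-c) := by
      have h6 : ∀ y ∈ Finset.univ.erase (0 : F), (if y ≠ 0 then Real.exp (-c) else (1 : ℝ)) =
          Real.exp (-c) := by
        intro y hy
        rw [if_pos (Finset.ne_of_mem_erase hy)]
      rw [Finset.sum_congr rfl h6, Finset.sum_const, nsmul_eq_mul]
      refine mul_le_mul_of_nonneg_right ?_ (Real.exp_pos _).le
      exact_mod_cast (Finset.card_le_univ _)
    have := Real.add_one_le_exp ((Fintype.card F : ℝ) * Real.exp (-c))
    linarith
  have h5 : (∑ y : F, (if y ≠ 0 then Real.exp (-c) else (1 : ℝ))) ^ (6 * N) ≤ Real.exp k := by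
    refine (pow_le_pow_left₀ ?_ h4 _).trans ?_
    · refine Finset.sum_nonneg fun y _ => ?_
      split_ifs
      · exact (Real.exp_pos _).le
      · exact zero_le_one
    rw [← Real.exp_nat_mul]
    refine Real.exp_le_exp.2 ?_
    have h6 : (6 * N * Fintype.card F : ℝ) ≤ k * 2 ^ c := by exact_mod_cast hck
    have h7 : (2 : ℝ) ^ c ≤ Real.exp c := by
      rw [← mul_one (c : ℝ), Real.exp_nat_mul]
      exact pow_le_pow_left₀ (by norm_num) (by linarith [Real.add_one_le_exp (1 : ℝ)]) c
    have h8 : (6 * N * Fintype.card F : ℝ) ≤ k * Real.exp c :=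
      h6.trans (mul_le_mul_of_nonneg_left h7 (Nat.cast_nonneg _))
    have h9 : ((6 * N : ℕ) : ℝ) * (Fintype.card F * Real.exp (-c)) =
        (6 * N * Fintype.card F : ℝ) * Real.exp (-c) := by
      push_cast
      ring
    rw [h9]
    calc (6 * N * Fintype.card F : ℝ) * Real.exp (-c) ≤ k * Real.exp c * Real.exp (-c) :=
          mul_le_mul_of_nonneg_right h8 (Real.exp_pos _).le
      _ = k := by
        rw [mul_assoc, ← Real.exp_add, add_neg_cancel, Real.exp_zero, mul_one]
  have h6 : (Fintype.card (Fin m → Row F N) : ℝ) = R ^ m := by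
    rw [Fintype.card_fun, Fintype.card_fin, Nat.cast_pow, hR]
  rw [h6]
  exact mul_le_mul_of_nonneg_left h5 (pow_nonneg hR0 m)

/-- There is a system with local expansion and small kernel. -/
theorem exists_system {c k : ℕ} (hF : (2 : F) ≠ 0) (hN : N = 2 ^ 36 * c * k)
    (hm : m = 12 * c * N) (hc : 1 ≤ c) (hk : 1 ≤ k)
    (hck : 6 * N * Fintype.card F ≤ k * 2 ^ c) :
    ∃ ω : Fin m → Row F N, Expands (100 * k) (mat ω) ∧
      (Finset.univ.filter fun x : Fin 6 × Fin N → F => ∀ v, rval (ω v) x = 0).card ≤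
        3 ^ (2 * k) := by
  classical
  have hN0 : 0 < N := by
    rw [hN]
    positivity
  have h1 := bad_count (F := F) hN hm hc hk
  have h2 := sum_ker (F := F) hF hN0 hm hck
  let G : Finset (Fin m → Row F N) := Finset.univ.filter fun ω : Fin m → Row F N =>
    ∀ T : Finset (Fin m), T.card ≤ 200 * k → 4 * T.card ≤ (nb ω T).card
  have hG : G.card + (Finset.univ.filter fun ω : Fin m → Row F N =>
      ¬ ∀ T : Finset (Fin m), T.card ≤ 200 * k → 4 * T.card ≤ (nb ω T).card).card =
      Fintype.card (Fin m → Row F N) := by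
    rw [Finset.card_filter_add_card_filter_not, Finset.card_univ]
  by_contra hcon
  push Not at hcon
  have h3 : ∀ ω ∈ G, 3 ^ (2 * k) + 1 ≤ (Finset.univ.filter fun x : Fin 6 × Fin N → F =>
      ∀ v, rval (ω v) x = 0).card := by
    intro ω hω
    refine hcon ω (expands_of_nb ?_)
    have h4 := (Finset.mem_filter.1 hω).2
    intro T hT
    exact h4 T (by omega)
  have h4 : G.card * (3 ^ (2 * k) + 1) ≤ ∑ ω : Fin m → Row F N,
      (Finset.univ.filter fun x : Fin 6 × Fin N → F => ∀ v, rval (ω v) x = 0).card := by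
    refine le_trans ?_ (Finset.sum_le_sum_of_subset (Finset.subset_univ G))
    rw [← smul_eq_mul]
    exact Finset.card_nsmul_le_sum _ _ _ h3
  have hr : Nonempty (Row F N) := ⟨(fun _ => ⟨0, hN0⟩, fun _ => 1)⟩
  have hΩ : 0 < Fintype.card (Fin m → Row F N) := Fintype.card_pos
  obtain ⟨X, hX⟩ : ∃ X, X = Fintype.card (Fin m → Row F N) := ⟨_, rfl⟩
  rw [← hX] at h1 h2 hG hΩ
  have h5 : 2 * X ≤ 3 * G.card := by omega
  have h6 : Real.exp k ≤ 3 ^ k := by
    rw [← mul_one (k : ℝ), Real.exp_nat_mul]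
    exact pow_le_pow_left₀ (Real.exp_pos 1).le (by linarith [Real.exp_one_lt_d9]) k
  have h7 : (X : ℝ) * Real.exp k ≤ X * 3 ^ k := mul_le_mul_of_nonneg_left h6 (Nat.cast_nonneg _)
  have h8 : ((G.card * (3 ^ (2 * k) + 1) : ℕ) : ℝ) ≤ ((X * 3 ^ k : ℕ) : ℝ) := by
    refine le_trans (by exact_mod_cast h4) (h2.trans (h7.trans (le_of_eq ?_)))
    push_cast
    rfl
  have h9 : G.card * (3 ^ (2 * k) + 1) ≤ X * 3 ^ k := by exact_mod_cast h8
  have h10 : 3 ^ k * 3 ≤ 3 ^ (2 * k) * 1 := by
    rw [← pow_succ, mul_one]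
    exact Nat.pow_le_pow_right (by norm_num) (by omega)
  have h11 : 2 * X * (3 ^ k * 3) < 2 * X * (3 ^ k * 3) := by
    calc 2 * X * (3 ^ k * 3) ≤ 2 * X * 3 ^ (2 * k) := by
          refine Nat.mul_le_mul_left _ ?_
          omega
      _ < 2 * X * (3 ^ (2 * k) + 1) := by
        refine Nat.mul_lt_mul_of_pos_left (Nat.lt_succ_self _) (by omega)
      _ ≤ 3 * G.card * (3 ^ (2 * k) + 1) := Nat.mul_le_mul_right _ h5
      _ = 3 * (G.card * (3 ^ (2 * k) + 1)) := by ring
      _ ≤ 3 * (X * 3 ^ k) := Nat.mul_le_mul_left _ h9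
      _ ≤ 2 * X * (3 ^ k * 3) := by
        calc 3 * (X * 3 ^ k) = 1 * (X * (3 ^ k * 3)) := by ring
          _ ≤ 2 * (X * (3 ^ k * 3)) := Nat.mul_le_mul_right _ (by norm_num)
          _ = _ := by ring
  exact lt_irrefl _ h11

end Pool.Agent.Y598.IM.Sp
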