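import Pool.Agent.Y598.IM.Sp.Sys

/-!
# Random sparse systems with local expansion and small kernel
-/

set_option autoImplicit false
set_option linter.unusedSectionVars false

namespace Pool.Agent.Y598.IM.Sp

open Finset

/-- A row: six positions and six nonzero coefficients. -/
abbrev Row (F : Type) [Field F] (N : ℕ) : Type := (Fin 6 → Fin N) × (Fin 6 → Fˣ)

section

variable {F : Type} [Field F] [Fintype F] [DecidableEq F] {N : ℕ} {Q : Type} [Fintype Q]
  [DecidableEq Q]

/-- The matrix of a system. -/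
def mat (ω : Q → Row F N) (v : Q) (e : Fin 6 × Fin N) : F :=
  if (ω v).1 e.1 = e.2 then ((ω v).2 e.1 : F) else 0

/-- The value of a row. -/
def rval (r : Row F N) (x : Fin 6 × Fin N → F) : F := ∑ j, (r.2 j : F) * x (j, r.1 j)

theorem mat_sum (ω : Q → Row F N) (v : Q) (x : Fin 6 × Fin N → F) :
    ∑ e, mat ω v e * x e = rval (ω v) x := by
  unfold rval mat
  rw [Fintype.sum_prod_type]
  refine Finset.sum_congr rfl fun j _ => ?_
  rw [Finset.sum_eq_single ((ω v).1 j)]
  · rw [if_pos rfl]
  · intro y _ hy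
    rw [if_neg (fun h => hy h.symm), zero_mul]
  · intro h
    exact absurd (Finset.mem_univ _) h

/-- The variables of a row. -/
def prt (r : Row F N) : Finset (Fin 6 × Fin N) := Finset.univ.image fun j => (j, r.1 j)

theorem mem_prt {r : Row F N} {e : Fin 6 × Fin N} : e ∈ prt r ↔ r.1 e.1 = e.2 := by
  unfold prt
  rw [Finset.mem_image]
  constructor
  · rintro ⟨j, _, rfl⟩
    rfl
  · intro h
    exact ⟨e.1, Finset.mem_univ _, Prod.ext rfl h⟩

theorem card_prt (r : Row F N) : (prt r).card = 6 := by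
  unfold prt
  rw [Finset.card_image_of_injective _ (fun i j h => congrArg Prod.fst h), Finset.card_univ,
    Fintype.card_fin]

theorem mat_ne_zero {ω : Q → Row F N} {v : Q} {e : Fin 6 × Fin N} :
    mat ω v e ≠ 0 ↔ e ∈ prt (ω v) := by
  rw [mem_prt]
  unfold mat
  constructor
  · intro h
    by_contra h'
    exact h (if_neg h')
  · intro h
    rw [if_pos h]
    exact Units.ne_zero _

/-- The neighbours of a set of rows. -/
def nb (ω : Q → Row F N) (T : Finset Q) : Finset (Fin 6 × Fin N) := T.biUnion fun v => prt (ω v)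

/-- Local expansion. -/
theorem expands_of_nb {n : ℕ} {ω : Q → Row F N}
    (h : ∀ T : Finset Q, T.card ≤ 2 * n → 4 * T.card ≤ (nb ω T).card) : Expands n (mat ω) := by
  intro t W ht hW
  obtain ⟨T, hT⟩ : ∃ T, T = supp t := ⟨_, rfl⟩
  rw [← hT] at ht ⊢
  have h1 := h T ht
  let U : Finset (Fin 6 × Fin N) := (nb ω T).filter fun e => (T.filter fun v => e ∈ prt (ω v)).card = 1
  have hU : U ⊆ W := by
    intro e he
    obtain ⟨he1, he2⟩ := Finset.mem_filter.1 he
    obtain ⟨v, hv⟩ := Finset.card_eq_one.1 he2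
    by_contra hcon
    have h2 := hW e hcon
    have hv1 : v ∈ T.filter fun v => e ∈ prt (ω v) := by
      rw [hv]
      exact Finset.mem_singleton_self v
    obtain ⟨hvT, hve⟩ := Finset.mem_filter.1 hv1
    unfold Zr at h2
    rw [Finset.sum_eq_single v] at h2
    · rcases mul_eq_zero.1 h2 with h3 | h3
      · rw [hT] at hvT
        exact mem_supp.1 hvT h3
      · exact mat_ne_zero.2 hve h3
    · intro w _ hw
      by_cases hwT : w ∈ T
      · have : mat ω w e = 0 := by
          by_contra h3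
          have : w ∈ T.filter fun v => e ∈ prt (ω v) :=
            Finset.mem_filter.2 ⟨hwT, mat_ne_zero.1 h3⟩
          rw [hv, Finset.mem_singleton] at this
          exact hw this
        rw [this, mul_zero]
      · have : t w = 0 := by
          by_contra h3
          exact hwT (hT ▸ mem_supp.2 h3)
        rw [this, zero_mul]
    · intro h3
      exact absurd (Finset.mem_univ v) h3
  have hdc : ∑ e ∈ nb ω T, (T.filter fun v => e ∈ prt (ω v)).card = 6 * T.card := by
    have e1 : ∀ e, (T.filter fun v => e ∈ prt (ω v)).card =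
        ∑ v ∈ T, if e ∈ prt (ω v) then 1 else 0 := fun e => Finset.card_filter _ _
    simp only [e1]
    rw [Finset.sum_comm]
    have e2 : ∀ v ∈ T, (∑ e ∈ nb ω T, if e ∈ prt (ω v) then 1 else 0) = 6 := by
      intro v hv
      rw [← Finset.card_filter]
      have e3 : (nb ω T).filter (fun e => e ∈ prt (ω v)) = prt (ω v) := by
        ext e
        rw [Finset.mem_filter]
        exact ⟨fun h => h.2, fun h => ⟨Finset.mem_biUnion.2 ⟨v, hv, h⟩, h⟩⟩
      rw [e3, card_prt]
    rw [Finset.sum_congr rfl e2, Finset.sum_const, smul_eq_mul, mul_comm]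
  have hlow : U.card + 2 * ((nb ω T).card - U.card) ≤ 6 * T.card := by
    rw [← hdc]
    have h2 : ∀ e ∈ nb ω T, (if e ∈ U then 1 else 2) ≤ (T.filter fun v => e ∈ prt (ω v)).card := by
      intro e he
      obtain ⟨v, hv, hve⟩ := Finset.mem_biUnion.1 he
      have h3 : 0 < (T.filter fun v => e ∈ prt (ω v)).card :=
        Finset.card_pos.2 ⟨v, Finset.mem_filter.2 ⟨hv, hve⟩⟩
      by_cases heU : e ∈ U
      · rw [if_pos heU]
        exact h3
      · rw [if_neg heU]
        have h4 : (T.filter fun v => e ∈ prt (ω v)).card ≠ 1 := fun h4 =>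
          heU (Finset.mem_filter.2 ⟨he, h4⟩)
        omega
    refine le_trans ?_ (Finset.sum_le_sum h2)
    rw [Finset.sum_ite, Finset.sum_const, Finset.sum_const, smul_eq_mul, smul_eq_mul, mul_one]
    have h5 : (nb ω T).filter (fun e => e ∈ U) = U := by
      ext e
      rw [Finset.mem_filter]
      exact ⟨fun h => h.2, fun h => ⟨(Finset.mem_filter.1 h).1, h⟩⟩
    have h6 : (nb ω T).filter (fun e => e ∉ U) = nb ω T \ U := by
      ext e
      rw [Finset.mem_filter, Finset.mem_sdiff]
    rw [h5, h6, Finset.card_sdiff_of_subset (Finset.filter_subset _ _), mul_comm 2]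
  have hUn : U.card ≤ (nb ω T).card := Finset.card_le_card (Finset.filter_subset _ _)
  have := Finset.card_le_card hU
  omega

end

/-! ### Counting -/

theorem pow_self_le (n : ℕ) : n ^ n ≤ 3 ^ n * n.factorial := by
  have h1 := Real.pow_div_factorial_le_exp (n : ℝ) (Nat.cast_nonneg n) n
  have h2 : Real.exp (n : ℝ) ≤ 3 ^ n := by
    rw [← mul_one (n : ℝ), Real.exp_nat_mul]
    exact pow_le_pow_left₀ (Real.exp_pos 1).le (by linarith [Real.exp_one_lt_d9]) n
  have h3 : (0 : ℝ) < n.factorial := by exact_mod_cast Nat.factorial_pos n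
  rw [div_le_iff₀ h3] at h1
  have h4 : (n : ℝ) ^ n ≤ 3 ^ n * n.factorial := h1.trans (mul_le_mul_of_nonneg_right h2 h3.le)
  exact_mod_cast h4

theorem choose_bound (n r : ℕ) : r ^ r * n.choose r ≤ (3 * n) ^ r := by
  have h1 := pow_self_le r
  have h2 : r.factorial * n.choose r ≤ n ^ r := by
    rw [← Nat.descFactorial_eq_factorial_mul_choose]
    exact Nat.descFactorial_le_pow n r
  calc r ^ r * n.choose r ≤ 3 ^ r * r.factorial * n.choose r := Nat.mul_le_mul_right _ h1
    _ = 3 ^ r * (r.factorial * n.choose r) := by ring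
    _ ≤ 3 ^ r * n ^ r := Nat.mul_le_mul_left _ h2
    _ = (3 * n) ^ r := by rw [mul_pow]

/-- The numerical estimate for one size. -/
theorem term_bound {N c k s : ℕ} (hN : N = 2 ^ 36 * c * k) (hs1 : 1 ≤ s) (hs : s ≤ 200 * k) :
    (12 * c * N).choose s * (6 * N).choose (4 * s) * (4 * s) ^ (6 * s) * 4 ^ s ≤ N ^ (6 * s) := by
  have h1 := choose_bound (12 * c * N) s
  have h2 := choose_bound (6 * N) (4 * s)
  have hpos : 0 < s ^ s * (4 * s) ^ (4 * s) := by positivity
  refine Nat.le_of_mul_le_mul_left ?_ hpos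
  have h3 : 3 * (12 * c * N) * (3 * (6 * N)) ^ 4 * (4 * s) ^ 6 * 4 ≤ s * (4 * s) ^ 4 * N ^ 6 := by
    have h4 : 241864704 * c * s ≤ N := by
      rw [hN]
      calc 241864704 * c * s ≤ 241864704 * c * (200 * k) := Nat.mul_le_mul_left _ hs
        _ = 48372940800 * (c * k) := by ring
        _ ≤ 2 ^ 36 * (c * k) := Nat.mul_le_mul_right _ (by norm_num)
        _ = 2 ^ 36 * c * k := by ring
    have h5 : 3 * (12 * c * N) * (3 * (6 * N)) ^ 4 * (4 * s) ^ 6 * 4 =
        (s * (4 * s) ^ 4 * N ^ 5) * (241864704 * c * s) := by ring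
    have h6 : s * (4 * s) ^ 4 * N ^ 6 = (s * (4 * s) ^ 4 * N ^ 5) * N := by ring
    rw [h5, h6]
    exact Nat.mul_le_mul_left _ h4
  calc s ^ s * (4 * s) ^ (4 * s) * ((12 * c * N).choose s * (6 * N).choose (4 * s) *
        (4 * s) ^ (6 * s) * 4 ^ s) =
      (s ^ s * (12 * c * N).choose s) * ((4 * s) ^ (4 * s) * (6 * N).choose (4 * s)) *
        ((4 * s) ^ (6 * s) * 4 ^ s) := by ring
    _ ≤ (3 * (12 * c * N)) ^ s * (3 * (6 * N)) ^ (4 * s) * ((4 * s) ^ (6 * s) * 4 ^ s) :=
      Nat.mul_le_mul_right _ (Nat.mul_le_mul h1 h2)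
    _ = (3 * (12 * c * N) * (3 * (6 * N)) ^ 4 * (4 * s) ^ 6 * 4) ^ s := by
      generalize 3 * (12 * c * N) = a
      generalize 3 * (6 * N) = b
      rw [mul_pow _ 4 s, mul_pow _ ((4 * s) ^ 6) s, mul_pow _ (b ^ 4) s, ← pow_mul, ← pow_mul,
        mul_assoc, mul_assoc, mul_assoc]
    _ ≤ (s * (4 * s) ^ 4 * N ^ 6) ^ s := Nat.pow_le_pow_left h3 _
    _ = s ^ s * (4 * s) ^ (4 * s) * N ^ (6 * s) := by
      rw [mul_pow, mul_pow, ← pow_mul, ← pow_mul]

section

variable {F : Type} [Field F] [Fintype F] [DecidableEq F] {N m : ℕ}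

theorem card_row : Fintype.card (Row F N) = N ^ 6 * Fintype.card Fˣ ^ 6 := by
  rw [Fintype.card_prod, Fintype.card_fun, Fintype.card_fun, Fintype.card_fin, Fintype.card_fin]

/-- The rows with all variables in a small set. -/
theorem card_rows_in (Y : Finset (Fin 6 × Fin N)) :
    (Finset.univ.filter fun r : Row F N => prt r ⊆ Y).card ≤ Y.card ^ 6 * Fintype.card Fˣ ^ 6 := by
  classical
  have h1 : (Finset.univ.filter fun r : Row F N => prt r ⊆ Y) ⊆
      (Finset.univ.filter fun f : Fin 6 → Fin N => ∀ j, (j, f j) ∈ Y) ×ˢ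
        (Finset.univ : Finset (Fin 6 → Fˣ)) := by
    intro r hr
    rw [Finset.mem_product, Finset.mem_filter]
    refine ⟨⟨Finset.mem_univ _, fun j => ?_⟩, Finset.mem_univ _⟩
    exact (Finset.mem_filter.1 hr).2 (mem_prt.2 rfl)
  refine (Finset.card_le_card h1).trans ?_
  rw [Finset.card_product, Finset.card_univ, Fintype.card_fun, Fintype.card_fin]
  refine Nat.mul_le_mul_right _ ?_
  have h2 : (Finset.univ.filter fun f : Fin 6 → Fin N => ∀ j, (j, f j) ∈ Y).card ≤
      (Fintype.piFinset fun _ : Fin 6 => Y).card := by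
    refine Finset.card_le_card_of_injOn (fun f j => (j, f j)) ?_ ?_
    · intro f hf
      rw [Finset.mem_coe, Fintype.mem_piFinset]
      exact (Finset.mem_filter.1 hf).2
    · intro f _ f' _ h
      funext j
      exact congrArg Prod.snd (congrFun h j)
  refine h2.trans ?_
  rw [Fintype.card_piFinset, Finset.prod_const, Finset.card_univ, Fintype.card_fin]

/-- The systems in which the rows in `T` are in a given set. -/
theorem card_forall_mem {R : Type} [Fintype R] [DecidableEq R] (T : Finset (Fin m))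
    (S : Finset R) :
    (Finset.univ.filter fun ω : Fin m → R => ∀ v ∈ T, ω v ∈ S).card =
      S.card ^ T.card * Fintype.card R ^ (m - T.card) := by
  classical
  have h1 : (Finset.univ.filter fun ω : Fin m → R => ∀ v ∈ T, ω v ∈ S) =
      Fintype.piFinset fun v => if v ∈ T then S else Finset.univ := by
    ext ω
    rw [Finset.mem_filter, Fintype.mem_piFinset]
    constructor
    · rintro ⟨_, h⟩ v
      by_cases hv : v ∈ T
      · rw [if_pos hv]
        exact h v hv
      · rw [if_neg hv]
        exact Finset.mem_univ _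
    · intro h
      refine ⟨Finset.mem_univ _, fun v hv => ?_⟩
      have := h v
      rwa [if_pos hv] at this
  rw [h1, Fintype.card_piFinset]
  have h2 : ∀ v, (if v ∈ T then S else Finset.univ).card = if v ∈ T then S.card else Fintype.card R := by
    intro v
    by_cases hv : v ∈ T
    · rw [if_pos hv, if_pos hv]
    · rw [if_neg hv, if_neg hv, Finset.card_univ]
  simp only [h2]
  rw [Finset.prod_ite, Finset.prod_const, Finset.prod_const]
  have h3 : (Finset.univ.filter fun v => v ∈ T) = T := by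
    ext v
    simp
  have h4 : (Finset.univ.filter fun v => v ∉ T) = Tᶜ := by
    ext v
    simp
  rw [h3, h4, Finset.card_compl, Fintype.card_fin]

/-- Few systems do not expand. -/
theorem bad_count {c k : ℕ} (hN : N = 2 ^ 36 * c * k) (hm : m = 12 * c * N) (hc : 1 ≤ c)
    (hk : 1 ≤ k) :
    3 * (Finset.univ.filter fun ω : Fin m → Row F N =>
      ¬ ∀ T : Finset (Fin m), T.card ≤ 200 * k → 4 * T.card ≤ (nb ω T).card).card ≤
    Fintype.card (Fin m → Row F N) := by
  classical
  have hck : 1 ≤ c * k := Nat.mul_pos hc hk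
  have hN0 : 1000 * k ≤ N := by
    rw [hN]
    calc 1000 * k ≤ 2 ^ 36 * (c * k) := by
          calc 1000 * k ≤ 1000 * (c * k) := Nat.mul_le_mul_left _ (Nat.le_mul_of_pos_left _ hc)
            _ ≤ _ := Nat.mul_le_mul_right _ (by norm_num)
      _ = _ := by ring
  let R : ℕ → Finset (Fin m → Row F N) := fun s =>
    (Finset.powersetCard s (Finset.univ : Finset (Fin m))).biUnion fun T =>
      (Finset.powersetCard (4 * s) (Finset.univ : Finset (Fin 6 × Fin N))).biUnion fun Y =>
        Finset.univ.filter fun ω : Fin m → Row F N =>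
          ∀ v ∈ T, ω v ∈ Finset.univ.filter fun r : Row F N => prt r ⊆ Y
  have hsub : (Finset.univ.filter fun ω : Fin m → Row F N =>
      ¬ ∀ T : Finset (Fin m), T.card ≤ 200 * k → 4 * T.card ≤ (nb ω T).card) ⊆
      (Finset.Icc 1 (200 * k)).biUnion R := by
    intro ω hω
    have h1 := (Finset.mem_filter.1 hω).2
    push Not at h1
    obtain ⟨T, hT1, hT2⟩ := h1
    have hT0 : 1 ≤ T.card := by omega
    obtain ⟨Y, hY1, hY2⟩ := Finset.exists_superset_card_eq (s := nb ω T) (n := 4 * T.card)
      (by omega) (by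
        rw [Fintype.card_prod, Fintype.card_fin, Fintype.card_fin]
        omega)
    rw [Finset.mem_biUnion]
    refine ⟨T.card, Finset.mem_Icc.2 ⟨hT0, hT1⟩, ?_⟩
    rw [Finset.mem_biUnion]
    refine ⟨T, Finset.mem_powersetCard.2 ⟨Finset.subset_univ _, rfl⟩, ?_⟩
    rw [Finset.mem_biUnion]
    refine ⟨Y, Finset.mem_powersetCard.2 ⟨Finset.subset_univ _, hY2⟩, ?_⟩
    rw [Finset.mem_filter]
    refine ⟨Finset.mem_univ _, fun v hv => Finset.mem_filter.2 ⟨Finset.mem_univ _, ?_⟩⟩
    exact (Finset.subset_biUnion_of_mem (fun v => prt (ω v)) hv).trans hY1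
  have hu : 0 < Fintype.card Fˣ := Fintype.card_pos
  have hR : ∀ s ∈ Finset.Icc 1 (200 * k), 4 ^ s * (R s).card ≤ Fintype.card (Fin m → Row F N) := by
    intro s hs
    obtain ⟨hs1, hs2⟩ := Finset.mem_Icc.1 hs
    have hsm : s ≤ m := by
      rw [hm]
      calc s ≤ 200 * k := hs2
        _ ≤ N := by omega
        _ ≤ 12 * c * N := Nat.le_mul_of_pos_left _ (by omega)
    have h1 : (R s).card ≤ (12 * c * N).choose s * ((6 * N).choose (4 * s) *
        (((4 * s) ^ 6 * Fintype.card Fˣ ^ 6) ^ s * Fintype.card (Row F N) ^ (m - s))) := by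
      refine Finset.card_biUnion_le.trans ?_
      refine (Finset.sum_le_card_nsmul _ _ ((6 * N).choose (4 * s) *
        (((4 * s) ^ 6 * Fintype.card Fˣ ^ 6) ^ s * Fintype.card (Row F N) ^ (m - s))) ?_).trans ?_
      · intro T hT
        refine Finset.card_biUnion_le.trans ?_
        refine (Finset.sum_le_card_nsmul _ _
          (((4 * s) ^ 6 * Fintype.card Fˣ ^ 6) ^ s * Fintype.card (Row F N) ^ (m - s)) ?_).trans ?_
        · intro Y hY
          have hT2 := (Finset.mem_powersetCard.1 hT).2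
          have hY2 := (Finset.mem_powersetCard.1 hY).2
          rw [card_forall_mem, hT2]
          refine Nat.mul_le_mul_right _ (Nat.pow_le_pow_left ?_ _)
          have := card_rows_in (F := F) Y
          rwa [hY2] at this
        · rw [Finset.card_powersetCard, Finset.card_univ, Fintype.card_prod, Fintype.card_fin,
            Fintype.card_fin, smul_eq_mul]
      · rw [Finset.card_powersetCard, Finset.card_univ, Fintype.card_fin, smul_eq_mul, hm]
    have h2 := term_bound (c := c) (k := k) hN hs1 hs2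
    have h3 : Fintype.card (Fin m → Row F N) =
        Fintype.card (Row F N) ^ s * Fintype.card (Row F N) ^ (m - s) := by
      rw [Fintype.card_fun, Fintype.card_fin, ← pow_add]
      congr 1
      omega
    rw [h3]
    calc 4 ^ s * (R s).card ≤ 4 ^ s * ((12 * c * N).choose s * ((6 * N).choose (4 * s) *
        (((4 * s) ^ 6 * Fintype.card Fˣ ^ 6) ^ s * Fintype.card (Row F N) ^ (m - s)))) :=
          Nat.mul_le_mul_left _ h1
      _ = ((12 * c * N).choose s * (6 * N).choose (4 * s) * (4 * s) ^ (6 * s) * 4 ^ s) *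
          ((Fintype.card Fˣ ^ 6) ^ s * Fintype.card (Row F N) ^ (m - s)) := by
        rw [mul_pow, ← pow_mul (4 * s) 6 s]
        ring
      _ ≤ N ^ (6 * s) * ((Fintype.card Fˣ ^ 6) ^ s * Fintype.card (Row F N) ^ (m - s)) :=
        Nat.mul_le_mul_right _ h2
      _ = _ := by
        rw [card_row, mul_pow (N ^ 6) (Fintype.card Fˣ ^ 6) s, ← pow_mul N 6 s]
        ring
  have h1 := (Finset.card_le_card hsub).trans Finset.card_biUnion_le
  have h2 : ∀ t : ℕ, 3 * 4 ^ t * ∑ s ∈ Finset.Icc 1 t, (if s ≤ 200 * k then (R s).card else 0) ≤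
      (4 ^ t - 1) * Fintype.card (Fin m → Row F N) := by
    intro t
    induction t with
    | zero => simp
    | succ t ih =>
      rw [Finset.sum_Icc_succ_top (by omega)]
      have h3 : 4 ^ (t + 1) * (if t + 1 ≤ 200 * k then (R (t + 1)).card else 0) ≤
          Fintype.card (Fin m → Row F N) := by
        by_cases h4 : t + 1 ≤ 200 * k
        · rw [if_pos h4]
          exact hR _ (Finset.mem_Icc.2 ⟨by omega, h4⟩)
        · rw [if_neg h4, mul_zero]
          exact Nat.zero_le _
      have h5 : 4 ^ (t + 1) - 1 = 4 * (4 ^ t - 1) + 3 := by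
        have : 1 ≤ 4 ^ t := Nat.one_le_pow _ _ (by norm_num)
        rw [pow_succ]
        omega
      rw [h5]
      obtain ⟨X, hX⟩ : ∃ X, X = Fintype.card (Fin m → Row F N) := ⟨_, rfl⟩
      rw [← hX] at ih h3 ⊢
      calc 3 * 4 ^ (t + 1) * ((∑ s ∈ Finset.Icc 1 t, (if s ≤ 200 * k then (R s).card else 0)) +
            (if t + 1 ≤ 200 * k then (R (t + 1)).card else 0)) =
          4 * (3 * 4 ^ t * ∑ s ∈ Finset.Icc 1 t, (if s ≤ 200 * k then (R s).card else 0)) +
            3 * (4 ^ (t + 1) * (if t + 1 ≤ 200 * k then (R (t + 1)).card else 0)) := by ring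
        _ ≤ 4 * ((4 ^ t - 1) * X) + 3 * X := by
          exact Nat.add_le_add (Nat.mul_le_mul_left _ ih) (Nat.mul_le_mul_left _ h3)
        _ = (4 * (4 ^ t - 1) + 3) * X := by ring
  have h3 : ∑ s ∈ Finset.Icc 1 (200 * k), (R s).card =
      ∑ s ∈ Finset.Icc 1 (200 * k), (if s ≤ 200 * k then (R s).card else 0) := by
    refine Finset.sum_congr rfl fun s hs => ?_
    rw [if_pos (Finset.mem_Icc.1 hs).2]
  rw [h3] at h1
  have h4 := h2 (200 * k)
  obtain ⟨X, hX⟩ : ∃ X, X = Fintype.card (Fin m → Row F N) := ⟨_, rfl⟩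
  rw [← hX] at h4 ⊢
  have h5 : 4 ^ (200 * k) * (3 * (Finset.univ.filter fun ω : Fin m → Row F N =>
      ¬ ∀ T : Finset (Fin m), T.card ≤ 200 * k → 4 * T.card ≤ (nb ω T).card).card) ≤
      4 ^ (200 * k) * X := by
    calc _ = 3 * 4 ^ (200 * k) * (Finset.univ.filter fun ω : Fin m → Row F N =>
        ¬ ∀ T : Finset (Fin m), T.card ≤ 200 * k → 4 * T.card ≤ (nb ω T).card).card := by ring
      _ ≤ _ := Nat.mul_le_mul_left _ h1
      _ ≤ _ := h4
      _ ≤ _ := Nat.mul_le_mul_right _ (Nat.sub_le _ _)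
  exact Nat.le_of_mul_le_mul_left h5 (by positivity)

end

end Pool.Agent.Y598.IM.Sp
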