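import Mathlib

/-!
# Rotational tournaments, tournaments on groups, scores
-/

set_option autoImplicit false
set_option linter.unusedSectionVars false

namespace Pool.Agent.Y598.IM.Sp

open Finset

/-! ### Tournaments on groups -/

section group

variable {A : Type} [AddCommGroup A] [Fintype A]

/-- A numbering of `A`. -/
noncomputable def numA (a : A) : ℕ := (Fintype.equivFin A a : ℕ)

theorem numA_inj {a b : A} (h : numA a = numA b) : a = b := by
  unfold numA at h
  exact (Fintype.equivFin A).injective (Fin.ext h)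

/-- The arcs between elements of a group. -/
def garc (x y : A) : Prop := numA (y - x) < numA (x - y)

theorem garc_add (x y t : A) : garc (x + t) (y + t) ↔ garc x y := by
  unfold garc
  rw [add_sub_add_right_eq_sub, add_sub_add_right_eq_sub]

theorem garc_asymm {x y : A} (h : garc x y) : ¬ garc y x := lt_asymm h

theorem garc_irrefl (x : A) : ¬ garc x x := lt_irrefl _

theorem garc_total (h2 : ∀ a : A, a + a = 0 → a = 0) {x y : A} (h : x ≠ y) :
    garc x y ∨ garc y x := by
  refine lt_or_gt_of_ne fun h1 => h ?_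
  have h3 := numA_inj h1
  have h4 : (x - y) + (x - y) = 0 := by
    nth_rw 2 [← h3]
    abel
  exact sub_eq_zero.1 (h2 _ h4)

end group

/-! ### The rotational tournament -/

section rot

variable {p : ℕ} [NeZero p]

/-- The arcs of the rotational tournament: from `a` to `a + 1, …, a + (p - 1) / 2`. -/
def rot (a b : ZMod p) : Prop := a ≠ b ∧ 2 * (b - a).val < p

theorem rot_add (a b t : ZMod p) : rot (a + t) (b + t) ↔ rot a b := by
  unfold rot
  rw [add_sub_add_right_eq_sub]
  refine and_congr ?_ Iff.rfl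
  rw [Ne, Ne, add_left_inj]

theorem rot_irrefl (a : ZMod p) : ¬ rot a a := fun h => h.1 rfl

theorem val_sub_comm {a b : ZMod p} (h : a ≠ b) : (a - b).val + (b - a).val = p := by
  have h1 : b - a ≠ 0 := sub_ne_zero.2 (Ne.symm h)
  have h2 : a - b = -(b - a) := by abel
  have : NeZero (b - a) := ⟨h1⟩
  rw [h2, ZMod.val_neg_of_ne_zero]
  have := ZMod.val_lt (b - a)
  omega

theorem rot_asymm {a b : ZMod p} (h : rot a b) : ¬ rot b a := by
  intro h'
  have h1 := val_sub_comm h.1
  have h2 := h.2
  have h3 := h'.2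
  omega

theorem rot_total (hp : p % 2 = 1) {a b : ZMod p} (h : a ≠ b) : rot a b ∨ rot b a := by
  have h1 := val_sub_comm h
  rcases lt_or_ge (2 * (b - a).val) p with h2 | h2
  · exact Or.inl ⟨h, h2⟩
  · exact Or.inr ⟨Ne.symm h, by omega⟩

theorem rot_iff (a : ZMod p) {i : ℕ} (hi : i < p) (hi0 : 0 < i) :
    rot a (a + i) ↔ 2 * i < p := by
  unfold rot
  have h1 : (a + i - a : ZMod p) = (i : ZMod p) := by ring
  rw [h1, ZMod.val_natCast, Nat.mod_eq_of_lt hi]
  constructor
  · exact fun h => h.2
  · intro h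
    refine ⟨fun h2 => ?_, h⟩
    have h3 : (i : ZMod p) = 0 := by
      have : a + (i : ZMod p) - a = 0 := by rw [← h2, sub_self]
      rwa [h1] at this
    have h4 := congrArg ZMod.val h3
    rw [ZMod.val_natCast, Nat.mod_eq_of_lt hi, ZMod.val_zero] at h4
    omega

theorem rot_exists {a b : ZMod p} (h : rot a b) : ∃ i : ℕ, 0 < i ∧ 2 * i < p ∧ b = a + i := by
  refine ⟨(b - a).val, ?_, h.2, ?_⟩
  · rw [Nat.pos_iff_ne_zero]
    intro h1
    rw [ZMod.val_eq_zero] at h1
    exact h.1 (sub_eq_zero.1 h1).symm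
  · rw [ZMod.natCast_zmod_val]
    ring

/-- The successor is determined by the tournament. -/
theorem rot_succ (hp : p % 2 = 1) (hp3 : 3 ≤ p) (a b : ZMod p) :
    b = a + 1 ↔ rot a b ∧ ∀ z, rot a z → z ≠ b → rot b z := by
  have h1 : ((1 : ℕ) : ZMod p) = 1 := Nat.cast_one
  constructor
  · intro h
    subst h
    constructor
    · rw [← h1, rot_iff a (by omega) (by omega)]
      omega
    · intro z hz hne
      obtain ⟨i, hi0, hi2, rfl⟩ := rot_exists hz
      have hi1 : i ≠ 1 := by
        rintro rfl
        rw [h1] at hne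
        exact hne rfl
      obtain ⟨j, rfl⟩ := Nat.exists_eq_add_of_le' hi0
      have h2 : a + ((j + 1 : ℕ) : ZMod p) = (a + 1) + (j : ZMod p) := by
        push_cast
        ring
      rw [h2, rot_iff (a + 1) (by omega) (by omega)]
      omega
  · rintro ⟨hab, hall⟩
    by_contra hne
    obtain ⟨i, hi0, hi2, rfl⟩ := rot_exists hab
    have hi1 : i ≠ 1 := by
      rintro rfl
      rw [h1] at hne
      exact hne rfl
    have h3 : rot a (a + 1) := by
      rw [← h1, rot_iff a (by omega) (by omega)]
      omega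
    have h4 := hall (a + 1) h3 (fun h => hne h.symm)
    have h5 : rot (a + 1) (a + (i : ZMod p)) := by
      obtain ⟨j, rfl⟩ := Nat.exists_eq_add_of_le' hi0
      have h2 : a + ((j + 1 : ℕ) : ZMod p) = (a + 1) + (j : ZMod p) := by
        push_cast
        ring
      rw [h2, rot_iff (a + 1) (by omega) (by omega)]
      omega
    exact rot_asymm h4 h5

/-- The automorphisms of the rotational tournament are the translations. -/
theorem rot_aut (hp : p % 2 = 1) (hp3 : 3 ≤ p) {g : ZMod p → ZMod p}
    (hg : Function.Bijective g) (h : ∀ a b, rot a b ↔ rot (g a) (g b)) (a : ZMod p) :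
    g a = a + g 0 := by
  have h1 : ∀ a, g (a + 1) = g a + 1 := by
    intro a
    rw [rot_succ hp hp3]
    obtain ⟨h2, h3⟩ := (rot_succ hp hp3 a (a + 1)).1 rfl
    refine ⟨(h _ _).1 h2, fun z hz hne => ?_⟩
    obtain ⟨z, rfl⟩ := hg.2 z
    exact (h _ _).1 (h3 z ((h _ _).2 hz) fun h' => hne (by rw [h']))
  have h2 : ∀ n : ℕ, g (n : ZMod p) = n + g 0 := by
    intro n
    induction n with
    | zero => rw [Nat.cast_zero, zero_add]
    | succ n ih =>
      rw [Nat.cast_succ, h1, ih]
      ring
  have h3 := h2 a.val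
  rwa [ZMod.natCast_zmod_val] at h3

end rot

/-! ### Scores -/

section score

/-- The sign of an arc. -/
noncomputable def tsg {V : Type} (T : V → V → Prop) (u w : V) : ℤ :=
  open Classical in (if T u w then 1 else 0) - (if T w u then 1 else 0)

/-- The score of a vertex. -/
noncomputable def sc {V : Type} [Fintype V] (T : V → V → Prop) (u : V) : ℤ := ∑ w, tsg T u w

theorem sc_iso {V : Type} [Fintype V] {T T' : V → V → Prop} (φ : V ≃ V)
    (h : ∀ x y, T x y ↔ T' (φ x) (φ y)) (u : V) : sc T' (φ u) = sc T u := by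
  unfold sc
  rw [← Equiv.sum_comp φ]
  refine Finset.sum_congr rfl fun w _ => ?_
  unfold tsg
  rw [propext (h u w), propext (h w u)]

/-- The sign of the comparison of two numbers. -/
def sgn (x y : ℕ) : ℤ := if x < y then 1 else if y < x then -1 else 0

theorem sgn_self (x : ℕ) : sgn x x = 0 := by
  unfold sgn
  rw [if_neg (lt_irrefl x), if_neg (lt_irrefl x)]

theorem sum_sgn (n : ℕ) (i : Fin n) : ∑ j : Fin n, sgn i j = n - 1 - 2 * i := by
  have h1 : ∀ j : Fin n, sgn i j = (if i < j then 1 else 0) - (if j < i then 1 else 0) := by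
    intro j
    unfold sgn
    rcases lt_trichotomy i j with h | h | h
    · rw [if_pos (Fin.lt_def.1 h), if_pos h, if_neg (lt_asymm h), sub_zero]
    · rw [h, if_neg (lt_irrefl _), if_neg (lt_irrefl _), if_neg (lt_irrefl _), sub_self]
    · rw [if_neg (lt_asymm (Fin.lt_def.1 h)), if_pos (Fin.lt_def.1 h), if_neg (lt_asymm h),
        if_pos h, zero_sub]
  simp only [h1]
  rw [Finset.sum_sub_distrib, ← Finset.sum_filter, ← Finset.sum_filter, Finset.sum_const,
    Finset.sum_const]
  have h2 : (Finset.univ.filter fun j => i < j) = Finset.Ioi i := by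
    ext j
    simp
  have h3 : (Finset.univ.filter fun j => j < i) = Finset.Iio i := by
    ext j
    simp
  rw [h2, h3, Fin.card_Ioi, Fin.card_Iio]
  have := i.isLt
  simp only [nsmul_eq_mul, mul_one]
  have h4 : ((n - 1 - (i : ℕ) : ℕ) : ℤ) = n - 1 - i := by omega
  rw [h4]
  ring

theorem sum_tsg_rot {p : ℕ} [NeZero p] (a : ZMod p) : ∑ b, tsg (rot (p := p)) a b = 0 := by
  classical
  unfold tsg
  rw [Finset.sum_sub_distrib, sub_eq_zero]
  rw [← Equiv.sum_comp (Equiv.subLeft (a + a)) (fun b => if rot b a then (1 : ℤ) else 0)]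
  refine Finset.sum_congr rfl fun b _ => ?_
  have h1 : rot ((Equiv.subLeft (a + a)) b) a ↔ rot a b := by
    rw [Equiv.subLeft_apply]
    have h2 := rot_add (a + a - b) a (b - a)
    have e1 : a + a - b + (b - a) = a := by ring
    have e2 : a + (b - a) = b := by ring
    rw [e1, e2] at h2
    exact h2.symm
  rw [if_congr h1 rfl rfl]

theorem sum_tsg_garc {A : Type} [AddCommGroup A] [Fintype A] (a : A) :
    ∑ b, tsg (garc (A := A)) a b = 0 := by
  classical
  unfold tsg
  rw [Finset.sum_sub_distrib, sub_eq_zero]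
  rw [← Equiv.sum_comp (Equiv.subLeft (a + a)) (fun b => if garc b a then (1 : ℤ) else 0)]
  refine Finset.sum_congr rfl fun b _ => ?_
  have h1 : garc ((Equiv.subLeft (a + a)) b) a ↔ garc a b := by
    rw [Equiv.subLeft_apply]
    have h2 := garc_add (a + a - b) a (b - a)
    have e1 : a + a - b + (b - a) = a := by abel
    have e2 : a + (b - a) = b := by abel
    rw [e1, e2] at h2
    exact h2.symm
  rw [if_congr h1 rfl rfl]

end score

end Pool.Agent.Y598.IM.Sp
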