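import Mathlib
import Pool.Agent.W185.SRG.Count

/-!
# Sparse linear systems over a finite field and their local solutions
-/

set_option autoImplicit false
set_option linter.unusedSectionVars false

namespace Pool.Agent.Y598.IM.Sp

open Finset Module

variable {F E Q : Type} [Field F] [Fintype F] [DecidableEq F] [Fintype E] [DecidableEq E]
  [Fintype Q] [DecidableEq Q]

/-- The support of a vector. -/
def supp (t : Q → F) : Finset Q := Finset.univ.filter fun v => t v ≠ 0

theorem mem_supp {t : Q → F} {v : Q} : v ∈ supp t ↔ t v ≠ 0 := by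
  unfold supp
  rw [Finset.mem_filter]
  exact ⟨fun h => h.2, fun h => ⟨Finset.mem_univ _, h⟩⟩

theorem supp_add (t t' : Q → F) : (supp (t + t')).card ≤ (supp t).card + (supp t').card := by
  refine le_trans (Finset.card_le_card ?_) (Finset.card_union_le _ _)
  intro s hs
  rw [mem_supp] at hs
  rw [Finset.mem_union, mem_supp, mem_supp]
  by_contra h
  push Not at h
  apply hs
  rw [Pi.add_apply, h.1, h.2, add_zero]

/-- The combination of the rows of the matrix `A` with coefficients `t`. -/
def Zr (A : Q → E → F) (t : Q → F) (e : E) : F := ∑ v, t v * A v e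

theorem Zr_add (A : Q → E → F) (t t' : Q → F) (e : E) :
    Zr A (t + t') e = Zr A t e + Zr A t' e := by
  unfold Zr
  rw [← Finset.sum_add_distrib]
  refine Finset.sum_congr rfl fun s _ => ?_
  rw [Pi.add_apply, add_mul]

theorem Zr_smul (A : Q → E → F) (l : F) (t : Q → F) (e : E) : Zr A (l • t) e = l * Zr A t e := by
  unfold Zr
  rw [Finset.mul_sum]
  refine Finset.sum_congr rfl fun s _ => ?_
  rw [Pi.smul_apply, smul_eq_mul, mul_assoc]

theorem sum_Zr (A : Q → E → F) (t : Q → F) (M : E → F) :
    ∑ v, t v * ∑ e, A v e * M e = ∑ e, Zr A t e * M e := by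
  unfold Zr
  simp only [Finset.mul_sum, Finset.sum_mul]
  rw [Finset.sum_comm]
  refine Finset.sum_congr rfl fun e _ => Finset.sum_congr rfl fun v _ => ?_
  ring

/-- Combinations of few rows have large support. -/
def Expands (n : ℕ) (A : Q → E → F) : Prop :=
  ∀ (t : Q → F) (W : Finset E), (supp t).card ≤ 2 * n → (∀ e, e ∉ W → Zr A t e = 0) →
    2 * (supp t).card ≤ W.card

/-- The subspace of the combinations seen by `W`. -/
def Seen (n : ℕ) (A : Q → E → F) (hE : Expands n A) (W : Finset E) (hW : W.card ≤ n) :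
    Submodule F (Q → F) where
  carrier := {t | (supp t).card ≤ n ∧ ∀ e, e ∉ W → Zr A t e = 0}
  add_mem' := by
    rintro t t' ⟨h1, h2⟩ ⟨h1', h2'⟩
    have h3 : ∀ e, e ∉ W → Zr A (t + t') e = 0 := by
      intro e he
      rw [Zr_add, h2 e he, h2' e he, add_zero]
    refine ⟨?_, h3⟩
    have h4 := supp_add t t'
    have h5 := hE (t + t') W (by omega) h3
    omega
  zero_mem' := by
    refine ⟨?_, ?_⟩
    · have : supp (0 : Q → F) = ∅ := by
        ext s
        simp [mem_supp]
      rw [this]
      simp
    · intro e _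
      unfold Zr
      refine Finset.sum_eq_zero fun s _ => ?_
      rw [Pi.zero_apply, zero_mul]
  smul_mem' := by
    rintro l t ⟨h1, h2⟩
    refine ⟨le_trans (Finset.card_le_card ?_) h1, ?_⟩
    · intro s hs
      rw [mem_supp] at hs ⊢
      intro h
      apply hs
      rw [Pi.smul_apply, h, smul_zero]
    · intro e he
      rw [Zr_smul, h2 e he, mul_zero]

/-- `M` satisfies the equations seen by `W`. -/
def Good (n : ℕ) (A : Q → E → F) (β : Q → F) (W : Finset E) (M : E → F) : Prop :=
  ∀ t : Q → F, (supp t).card ≤ n → (∀ e, e ∉ W → Zr A t e = 0) →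
    ∑ v, t v * (∑ e, A v e * M e - β v) = 0

theorem Good.mono {n : ℕ} {A : Q → E → F} {β : Q → F} {W W' : Finset E} (hWW : W ⊆ W')
    {M : E → F} (hM : Good n A β W' M) : Good n A β W M :=
  fun t h1 h2 => hM t h1 fun e he => h2 e fun h => he (hWW h)

theorem Good.add {n : ℕ} {A : Q → E → F} {β β' : Q → F} {W : Finset E} {M M' : E → F}
    (h : Good n A β W M) (h' : Good n A β' W M') : Good n A (β + β') W (M + M') := by
  intro t h1 h2
  have h3 : ∑ v, t v * (∑ e, A v e * (M + M') e - (β + β') v) =
      ∑ v, t v * (∑ e, A v e * M e - β v) + ∑ v, t v * (∑ e, A v e * M' e - β' v) := by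
    rw [← Finset.sum_add_distrib]
    refine Finset.sum_congr rfl fun s _ => ?_
    rw [Pi.add_apply]
    have : ∑ e, A s e * (M + M') e = ∑ e, A s e * M e + ∑ e, A s e * M' e := by
      rw [← Finset.sum_add_distrib]
      refine Finset.sum_congr rfl fun e _ => ?_
      rw [Pi.add_apply, mul_add]
    rw [this]
    ring
  rw [h3, h t h1 h2, h' t h1 h2, add_zero]

theorem Good.neg {n : ℕ} {A : Q → E → F} {β : Q → F} {W : Finset E} {M : E → F}
    (h : Good n A β W M) : Good n A (-β) W (-M) := by
  intro t h1 h2
  have h3 : ∑ v, t v * (∑ e, A v e * (-M) e - (-β) v) =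
      -∑ v, t v * (∑ e, A v e * M e - β v) := by
    rw [← Finset.sum_neg_distrib]
    refine Finset.sum_congr rfl fun s _ => ?_
    have : ∑ e, A s e * (-M) e = -∑ e, A s e * M e := by
      rw [← Finset.sum_neg_distrib]
      refine Finset.sum_congr rfl fun e _ => ?_
      rw [Pi.neg_apply, mul_neg]
    rw [this, Pi.neg_apply]
    ring
  rw [h3, h t h1 h2, neg_zero]

theorem good_zero {n : ℕ} {A : Q → E → F} (W : Finset E) : Good n A 0 W 0 := by
  intro t _ _
  refine Finset.sum_eq_zero fun v _ => ?_
  simp

/-- An equation all of whose variables are in `W` is satisfied. -/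
theorem Good.eq {n : ℕ} (hn : 0 < n) {A : Q → E → F} {β : Q → F} {W : Finset E} {M : E → F}
    (hM : Good n A β W M) (v : Q) (hv : ∀ e, e ∉ W → A v e = 0) : ∑ e, A v e * M e = β v := by
  have h := hM (Pi.single v 1) ?_ ?_
  · rw [Finset.sum_eq_single v] at h
    · rw [Pi.single_eq_same, one_mul] at h
      exact sub_eq_zero.1 h
    · intro s' _ hs'
      rw [Pi.single_eq_of_ne hs', zero_mul]
    · intro h'
      exact absurd (Finset.mem_univ v) h'
  · have : (supp (Pi.single v (1 : F))).card ≤ 1 := by
      refine le_trans (Finset.card_le_card (t := {v}) ?_) (by simp)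
      intro s' hs'
      rw [mem_supp] at hs'
      rw [Finset.mem_singleton]
      by_contra hne
      exact hs' (Pi.single_eq_of_ne hne _)
    omega
  · intro e he
    unfold Zr
    rw [Finset.sum_eq_single v]
    · rw [Pi.single_eq_same, one_mul]
      exact hv e he
    · intro s' _ hs'
      rw [Pi.single_eq_of_ne hs', zero_mul]
    · intro h'
      exact absurd (Finset.mem_univ v) h'

/-- Solvability of a finite system of linear equations. -/
theorem exists_solution {V U : Type} [AddCommGroup V] [Module F V] [AddCommGroup U]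
    [Module F U] [FiniteDimensional F U]
    (B : V →ₗ[F] Dual F U) (η : Dual F V)
    (h : ∀ v, B v = 0 → η v = 0) : ∃ u, ∀ v, B v u = η v := by
  have h1 : η ∈ (LinearMap.ker B).dualAnnihilator := by
    rw [Submodule.mem_dualAnnihilator]
    intro v hv
    exact h v (LinearMap.mem_ker.1 hv)
  rw [← LinearMap.range_dualMap_eq_dualAnnihilator_ker] at h1
  obtain ⟨ξ, hξ⟩ := h1
  refine ⟨(evalEquiv F U).symm ξ, fun v => ?_⟩
  rw [apply_evalEquiv_symm_apply, ← hξ]
  rfl

/-- The vectors which vanish on `W`. -/
def Van (F : Type) [Field F] (W : Finset E) : Submodule F (E → F) where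
  carrier := {D | ∀ w ∈ W, D w = 0}
  add_mem' := by
    intro D D' h1 h2 w hw
    rw [Pi.add_apply, h1 w hw, h2 w hw, add_zero]
  zero_mem' := by
    intro w _
    rfl
  smul_mem' := by
    intro l D h1 w hw
    rw [Pi.smul_apply, h1 w hw, smul_zero]

/-- Local solutions extend. -/
theorem Good.extend {n : ℕ} {A : Q → E → F} (hE : Expands n A) {β : Q → F} {W W' : Finset E}
    (hW' : W'.card ≤ n) {M : E → F} (hM : Good n A β W M) :
    ∃ M' : E → F, Good n A β W' M' ∧ ∀ w ∈ W, M' w = M w := by
  let B : Seen n A hE W' hW' →ₗ[F] Dual F (Van F W) :=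
    { toFun := fun t =>
        { toFun := fun D => ∑ v, t.1 v * ∑ e, A v e * D.1 e
          map_add' := by
            intro D D'
            rw [← Finset.sum_add_distrib]
            refine Finset.sum_congr rfl fun s _ => ?_
            rw [← mul_add, ← Finset.sum_add_distrib]
            congr 1
            refine Finset.sum_congr rfl fun e _ => ?_
            rw [Submodule.coe_add, Pi.add_apply, mul_add]
          map_smul' := by
            intro l D
            rw [RingHom.id_apply, smul_eq_mul, Finset.mul_sum]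
            refine Finset.sum_congr rfl fun s _ => ?_
            rw [Finset.mul_sum, Finset.mul_sum, Finset.mul_sum]
            refine Finset.sum_congr rfl fun e _ => ?_
            rw [Submodule.coe_smul, Pi.smul_apply, smul_eq_mul]
            ring }
      map_add' := by
        intro t t'
        refine LinearMap.ext fun D => ?_
        show ∑ v, (t.1 v + t'.1 v) * _ = ∑ v, t.1 v * _ + ∑ v, t'.1 v * _
        rw [← Finset.sum_add_distrib]
        exact Finset.sum_congr rfl fun s _ => add_mul _ _ _
      map_smul' := by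
        intro l t
        refine LinearMap.ext fun D => ?_
        show ∑ v, (l * t.1 v) * _ = l * ∑ v, t.1 v * _
        rw [Finset.mul_sum]
        exact Finset.sum_congr rfl fun s _ => mul_assoc _ _ _ }
  let η : Dual F (Seen n A hE W' hW') :=
    { toFun := fun t => ∑ v, t.1 v * (∑ e, A v e * M e - β v)
      map_add' := by
        intro t t'
        rw [← Finset.sum_add_distrib]
        exact Finset.sum_congr rfl fun s _ => add_mul _ _ _
      map_smul' := by
        intro l t
        rw [RingHom.id_apply, smul_eq_mul, Finset.mul_sum]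
        exact Finset.sum_congr rfl fun s _ => mul_assoc _ _ _ }
  obtain ⟨D, hD⟩ := exists_solution B η (by
    intro t ht
    refine hM t.1 t.2.1 ?_
    intro e he
    let D : Van F W := ⟨Pi.single e 1, by
      intro w hw
      have : w ≠ e := fun h => he (h ▸ hw)
      exact Pi.single_eq_of_ne this _⟩
    have h1 : B t D = 0 := by
      rw [ht]
      rfl
    have h2 : B t D = Zr A t.1 e := by
      show ∑ v, t.1 v * ∑ e', A v e' * (Pi.single e (1 : F) : E → F) e' = _
      rw [sum_Zr, Finset.sum_eq_single e]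
      · rw [Pi.single_eq_same, mul_one]
      · intro e' _ he'
        rw [Pi.single_eq_of_ne he', mul_zero]
      · intro h'
        exact absurd (Finset.mem_univ e) h'
    rw [← h2, h1])
  refine ⟨M - D.1, ?_, ?_⟩
  · intro t h1 h2
    have h3 := hD ⟨t, h1, h2⟩
    have h4 : ∑ v, t v * ∑ e, A v e * D.1 e = ∑ v, t v * (∑ e, A v e * M e - β v) := h3
    have h5 : ∑ v, t v * (∑ e, A v e * (M - D.1) e - β v) =
        ∑ v, t v * (∑ e, A v e * M e - β v) - ∑ v, t v * ∑ e, A v e * D.1 e := by
      rw [← Finset.sum_sub_distrib]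
      refine Finset.sum_congr rfl fun s _ => ?_
      have : ∑ e, A s e * (M - D.1) e = ∑ e, A s e * M e - ∑ e, A s e * D.1 e := by
        rw [← Finset.sum_sub_distrib]
        refine Finset.sum_congr rfl fun e _ => ?_
        rw [Pi.sub_apply, mul_sub]
      rw [this]
      ring
    rw [h5, h4, sub_self]
  · intro w hw
    rw [Pi.sub_apply, D.2 w hw, sub_zero]

theorem good_empty {n : ℕ} {A : Q → E → F} (hE : Expands n A) (β : Q → F) (M : E → F) :
    Good n A β ∅ M := by
  intro t h1 h2
  have h3 := hE t ∅ (by omega) h2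
  rw [Finset.card_empty] at h3
  have h4 : supp t = ∅ := by
    rw [← Finset.card_eq_zero]
    omega
  refine Finset.sum_eq_zero fun s _ => ?_
  have h5 : t s = 0 := by
    by_contra h
    have : s ∈ supp t := mem_supp.2 h
    rw [h4] at this
    exact absurd this (Finset.notMem_empty s)
  rw [h5, zero_mul]

/-- Few combinations of the equations are seen by a set. -/
theorem finrank_seen {n : ℕ} {A : Q → E → F} (hE : Expands n A) (W : Finset E)
    (hW : W.card ≤ n) : 2 * finrank F (Seen n A hE W hW) ≤ W.card := by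
  classical
  have hfin : Finite (Seen n A hE W hW) := inferInstance
  obtain ⟨t0, ht0⟩ := Finite.exists_max (fun t : Seen n A hE W hW => (supp t.1).card)
  have h1 : 2 * (supp t0.1).card ≤ W.card := hE t0.1 W (by
    have := t0.2.1
    omega) t0.2.2
  let g : Seen n A hE W hW →ₗ[F] ((supp t0.1) → F) :=
    { toFun := fun t => fun s => t.1 s
      map_add' := fun _ _ => rfl
      map_smul' := fun _ _ => rfl }
  have hg : Function.Injective g := by
    rw [injective_iff_map_eq_zero]
    intro t ht
    have h2 : ∀ s, s ∈ supp t0.1 → t.1 s = 0 := fun s hs => congrFun ht ⟨s, hs⟩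
    have h3 : supp t0.1 ∪ supp t.1 ⊆ supp (t0.1 + t.1) := by
      intro s hs
      rw [mem_supp, Pi.add_apply]
      by_cases hs0 : s ∈ supp t0.1
      · rw [h2 s hs0, add_zero]
        exact mem_supp.1 hs0
      · have hs1 : s ∈ supp t.1 := (Finset.mem_union.1 hs).resolve_left hs0
        have h4 : t0.1 s = 0 := by
          by_contra h
          exact hs0 (mem_supp.2 h)
        rw [h4, zero_add]
        exact mem_supp.1 hs1
    have h5 : Disjoint (supp t0.1) (supp t.1) := by
      rw [Finset.disjoint_left]
      intro s hs hs'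
      exact mem_supp.1 hs' (h2 s hs)
    have h6 := Finset.card_le_card h3
    rw [Finset.card_union_of_disjoint h5] at h6
    have h7 : (supp (t0 + t).1).card ≤ (supp t0.1).card := ht0 (t0 + t)
    have h8 : (t0 + t).1 = t0.1 + t.1 := rfl
    rw [h8] at h7
    have h9 : (supp t.1).card = 0 := by omega
    rw [Finset.card_eq_zero] at h9
    refine Subtype.ext ?_
    funext s
    by_contra h
    have : s ∈ supp t.1 := mem_supp.2 h
    rw [h9] at this
    exact absurd this (Finset.notMem_empty s)
  have h2 := LinearMap.finrank_le_finrank_of_injective hg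
  rw [Module.finrank_fintype_fun_eq_card, Fintype.card_coe] at h2
  omega

/-- Extension by zero. -/
def ext0 {W : Finset E} (μ : W → F) (e : E) : F := if h : e ∈ W then μ ⟨e, h⟩ else 0

theorem ext0_mem {W : Finset E} (μ : W → F) (w : W) : ext0 μ w = μ w := by
  unfold ext0
  rw [dif_pos w.2]

/-- There are many local solutions. -/
theorem many_good {n : ℕ} {A : Q → E → F} (hE : Expands n A) (β : Q → F) (W : Finset E)
    (hW : W.card ≤ n) :
    ∃ 𝓜 : Finset (E → F), (∀ M ∈ 𝓜, Good n A β W M) ∧
      (∀ M ∈ 𝓜, ∀ M' ∈ 𝓜, (∀ w ∈ W, M w = M' w) → M = M') ∧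
      Fintype.card F ^ (W.card - W.card / 2) ≤ 𝓜.card := by
  classical
  obtain ⟨Mb, hMb, _⟩ := (good_empty hE β 0).extend hE hW
  let ℓ : (W → F) → Dual F (Seen n A hE W hW) := fun μ =>
    { toFun := fun t => ∑ v, t.1 v * ∑ e, A v e * ext0 μ e
      map_add' := by
        intro t t'
        rw [← Finset.sum_add_distrib]
        exact Finset.sum_congr rfl fun s _ => add_mul _ _ _
      map_smul' := by
        intro l t
        rw [RingHom.id_apply, smul_eq_mul, Finset.mul_sum]
        exact Finset.sum_congr rfl fun s _ => mul_assoc _ _ _ }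
  have f2 : Finite (Dual F (Seen n A hE W hW)) := Module.finite_of_finite F
  have g2 : Fintype (Dual F (Seen n A hE W hW)) := Fintype.ofFinite _
  obtain ⟨y, hy⟩ := Pool.Agent.W185.SRG.exists_large_fiber (0 : W → F) ℓ
  have hq : 1 ≤ Fintype.card F := Fintype.card_pos
  have c1 : Fintype.card (W → F) = Fintype.card F ^ W.card := by
    rw [Fintype.card_fun, Fintype.card_coe]
  have c2 : Fintype.card (Dual F (Seen n A hE W hW)) ≤ Fintype.card F ^ (W.card / 2) := by
    rw [Module.card_eq_pow_finrank (K := F)]
    refine Nat.pow_le_pow_right hq ?_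
    rw [Subspace.dual_finrank_eq]
    have := finrank_seen hE W hW
    omega
  have hne : (Finset.univ.filter fun μ => ℓ μ = y).Nonempty := by
    rw [← Finset.card_pos]
    by_contra h
    have h0 : (Finset.univ.filter fun μ => ℓ μ = y).card = 0 := by omega
    rw [h0, zero_mul, c1] at hy
    have : 0 < Fintype.card F ^ W.card := by positivity
    omega
  obtain ⟨μ0, hμ0⟩ := hne
  have hμ0' := (Finset.mem_filter.1 hμ0).2
  have hinj : Set.InjOn (fun μ : W → F => Mb + ext0 μ - ext0 μ0)
      ((Finset.univ.filter fun μ => ℓ μ = y : Finset _) : Set _) := by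
    intro μ _ μ' _ heq
    have h1 : ext0 μ = ext0 μ' := add_left_cancel (sub_left_inj.1 heq)
    funext w
    rw [← ext0_mem μ w, ← ext0_mem μ' w, h1]
  refine ⟨(Finset.univ.filter fun μ => ℓ μ = y).image fun μ : W → F => Mb + ext0 μ - ext0 μ0,
    ?_, ?_, ?_⟩
  · intro M hM
    obtain ⟨μ, hμ, rfl⟩ := Finset.mem_image.1 hM
    have hμ' := (Finset.mem_filter.1 hμ).2
    intro t ht1 ht2
    have h1 := hMb t ht1 ht2
    have h2 : ∑ v, t v * ∑ e, A v e * ext0 μ e = ∑ v, t v * ∑ e, A v e * ext0 μ0 e :=
      LinearMap.congr_fun (hμ'.trans hμ0'.symm) ⟨t, ht1, ht2⟩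
    have h3 : ∑ v, t v * (∑ e, A v e * (Mb + ext0 μ - ext0 μ0) e - β v) =
        ∑ v, t v * (∑ e, A v e * Mb e - β v) +
        (∑ v, t v * ∑ e, A v e * ext0 μ e - ∑ v, t v * ∑ e, A v e * ext0 μ0 e) := by
      rw [← Finset.sum_sub_distrib, ← Finset.sum_add_distrib]
      refine Finset.sum_congr rfl fun s _ => ?_
      have : ∑ e, A s e * (Mb + ext0 μ - ext0 μ0) e =
          ∑ e, A s e * Mb e + ∑ e, A s e * ext0 μ e - ∑ e, A s e * ext0 μ0 e := by
        rw [← Finset.sum_add_distrib, ← Finset.sum_sub_distrib]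
        refine Finset.sum_congr rfl fun e _ => ?_
        rw [Pi.sub_apply, Pi.add_apply]
        ring
      rw [this]
      ring
    rw [h3, h1, h2, sub_self, add_zero]
  · intro M hM M' hM' heq
    obtain ⟨μ, hμ, rfl⟩ := Finset.mem_image.1 hM
    obtain ⟨μ', hμ', rfl⟩ := Finset.mem_image.1 hM'
    have h1 : μ = μ' := by
      funext w
      have h2 : Mb w + ext0 μ w - ext0 μ0 w = Mb w + ext0 μ' w - ext0 μ0 w := heq w w.2
      rw [← ext0_mem μ w, ← ext0_mem μ' w]
      exact add_left_cancel (sub_left_inj.1 h2)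
    rw [h1]
  · rw [Finset.card_image_of_injOn hinj]
    have h1 : Fintype.card F ^ W.card ≤
        (Finset.univ.filter fun μ => ℓ μ = y).card * Fintype.card F ^ (W.card / 2) := by
      rw [← c1]
      exact hy.trans (Nat.mul_le_mul_left _ c2)
    have h2 : Fintype.card F ^ W.card =
        Fintype.card F ^ (W.card - W.card / 2) * Fintype.card F ^ (W.card / 2) := by
      rw [← pow_add]
      congr 1
      omega
    rw [h2] at h1
    exact Nat.le_of_mul_le_mul_right h1 (by positivity)

/-- Some nontrivial homogeneous local solution vanishes on `W`. -/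
theorem exists_moving {n : ℕ} {A : Q → E → F} (hE : Expands n A) (hEc : n ≤ Fintype.card E)
    (hF : 2 ≤ Fintype.card F) (W : Finset E) (hW : 2 * W.card + 1 ≤ n) :
    ∃ (e : E) (M : E → F), Good n A 0 (W ∪ {e}) M ∧ (∀ w ∈ W, M w = 0) ∧ M e ≠ 0 := by
  classical
  obtain ⟨W', hWW', hcard⟩ := Finset.exists_superset_card_eq (s := W) (n := 2 * W.card + 1)
    (by omega) (by omega)
  obtain ⟨𝓜, hgood, hsep, hc⟩ := many_good hE (0 : Q → F) W' (by omega)
  have h1 : W'.card - W'.card / 2 = W.card + 1 := by omega
  rw [h1] at hc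
  have hlt : Fintype.card (W → F) < 𝓜.card := by
    rw [Fintype.card_fun, Fintype.card_coe]
    refine lt_of_lt_of_le ?_ hc
    exact Nat.pow_lt_pow_right (by omega) (by omega)
  obtain ⟨M, hM, M', hM', hne, heq⟩ := Finset.exists_ne_map_eq_of_card_lt_of_maps_to
    (s := 𝓜) (t := (Finset.univ : Finset (W → F)))
    (f := fun M w => M w) (by rwa [Finset.card_univ])
    (fun _ _ => Finset.mem_coe.2 (Finset.mem_univ _))
  have heq' : ∀ w ∈ W, M w = M' w := fun w hw => congrFun heq ⟨w, hw⟩
  have hex : ∃ e ∈ W', M e ≠ M' e := by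
    by_contra hcon
    push Not at hcon
    exact hne (hsep M hM M' hM' hcon)
  obtain ⟨e, he, hMe⟩ := hex
  refine ⟨e, M - M', ?_, ?_, ?_⟩
  · have h2 := (hgood M hM).add (hgood M' hM').neg
    rw [neg_zero, add_zero, ← sub_eq_add_neg] at h2
    refine h2.mono ?_
    intro w hw
    rcases Finset.mem_union.1 hw with h | h
    · exact hWW' h
    · rw [Finset.mem_singleton.1 h]
      exact he
  · intro w hw
    rw [Pi.sub_apply, heq' w hw, sub_self]
  · rw [Pi.sub_apply]
    exact sub_ne_zero.2 hMe

end Pool.Agent.Y598.IM.Sp
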