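import Pool.Agent.Y598.IM.Sp.Ker
import Pool.Agent.Y598.IM.Sp.Rot

/-!
# The tournament of a sparse linear system
-/

set_option autoImplicit false
set_option linter.unusedSectionVars false

namespace Pool.Agent.Y598.IM.Sp

open Finset

/-- `T` is a tournament: for two different vertices there is exactly one arc between them, and there
are no loops. -/
def IsTournament {V : Type} (T : V → V → Prop) : Prop :=
  ∀ u v, (T u v → ¬ T v u) ∧ (u ≠ v → T u v ∨ T v u)

/-- The vertices: the pairs of a variable and a value, and two copies of the pairs of an equation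
and the values of five of its variables. -/
abbrev Vt (p N m : ℕ) : Type := ((Fin 6 × Fin N) × ZMod p) ⊕ (Bool × Fin m × (Fin 5 → ZMod p))

variable {p : ℕ} [hp : Fact p.Prime] {N m : ℕ}

/-- The values of the six variables of an equation, determined by five of them. -/
def nval (r : Row (ZMod p) N) (c : ZMod p) (β : Fin 5 → ZMod p) : Fin 6 → ZMod p :=
  Fin.cons ((((r.2 0)⁻¹ : (ZMod p)ˣ) : ZMod p) * (c - ∑ i, (r.2 i.succ : ZMod p) * β i)) β

theorem nval_sum (r : Row (ZMod p) N) (c : ZMod p) (β : Fin 5 → ZMod p) :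
    ∑ j, (r.2 j : ZMod p) * nval r c β j = c := by
  rw [Fin.sum_univ_succ]
  unfold nval
  simp only [Fin.cons_zero, Fin.cons_succ]
  rw [← mul_assoc, Units.mul_inv, one_mul]
  ring

theorem nval_succ (r : Row (ZMod p) N) (c : ZMod p) (β : Fin 5 → ZMod p) (i : Fin 5) :
    nval r c β i.succ = β i := rfl

/-- The values at the shifted node. -/
theorem nval_shift (r : Row (ZMod p) N) (c c' : ZMod p) (β : Fin 5 → ZMod p)
    (t : Fin 6 × Fin N → ZMod p) (j : Fin 6) (h : j = 0 → rval r t = c' - c) :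
    nval r c' (fun i => β i + t (i.succ, r.1 i.succ)) j = nval r c β j + t (j, r.1 j) := by
  rcases Fin.eq_zero_or_eq_succ j with hj | ⟨i, rfl⟩
  · have h1 := h hj
    subst hj
    unfold rval at h1
    rw [Fin.sum_univ_succ] at h1
    have h2 : c' = c + ((r.2 0 : ZMod p) * t (0, r.1 0) +
        ∑ i : Fin 5, (r.2 i.succ : ZMod p) * t (i.succ, r.1 i.succ)) := by
      rw [h1]
      ring
    unfold nval
    simp only [Fin.cons_zero]
    rw [h2]
    have h3 : ∑ i : Fin 5, (r.2 i.succ : ZMod p) * (β i + t (i.succ, r.1 i.succ)) =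
        ∑ i : Fin 5, (r.2 i.succ : ZMod p) * β i +
        ∑ i : Fin 5, (r.2 i.succ : ZMod p) * t (i.succ, r.1 i.succ) := by
      rw [← Finset.sum_add_distrib]
      exact Finset.sum_congr rfl fun i _ => mul_add _ _ _
    rw [h3]
    have h4 : (((r.2 0)⁻¹ : (ZMod p)ˣ) : ZMod p) * (r.2 0 : ZMod p) = 1 := Units.inv_mul _
    linear_combination t (0, r.1 0) * h4
  · rw [nval_succ, nval_succ]

/-- The vertex of the variable and the node fit. -/
def fits (r : Row (ZMod p) N) (c : ZMod p) (β : Fin 5 → ZMod p) (e : Fin 6 × Fin N)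
    (a : ZMod p) : Prop :=
  r.1 e.1 = e.2 ∧ a = nval r c β e.1

/-- The number of a variable. -/
def venc (e : Fin 6 × Fin N) : ℕ := (finProdFinEquiv e : Fin (6 * N))

theorem venc_inj {e e' : Fin 6 × Fin N} (h : venc e = venc e') : e = e' :=
  finProdFinEquiv.injective (Fin.ext h)

/-- The number of a node. -/
def nenc (s : Bool) (v : Fin m) : ℕ := if s then m + v else v

theorem nenc_inj {s s' : Bool} {v v' : Fin m} (h : nenc s v = nenc s' v') : s = s' ∧ v = v' := by
  unfold nenc at h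
  have h1 := v.isLt
  have h2 := v'.isLt
  cases s <;> cases s' <;> simp only [Bool.false_eq_true, if_true, if_false] at h
  · exact ⟨rfl, Fin.ext h⟩
  · omega
  · omega
  · exact ⟨rfl, Fin.ext (by omega)⟩

/-- The arcs of the tournament. -/
def arc (ω : Fin m → Row (ZMod p) N) (b : Fin m → ZMod p) : Vt p N m → Vt p N m → Prop
  | .inl (e, a), .inl (e', a') => (e = e' ∧ rot a a') ∨ venc e < venc e'
  | .inl (e, a), .inr (s, v, β) => (s = true ↔ ¬ fits (ω v) (b v) β e a)
  | .inr (s, v, β), .inl (e, a) => (s = true ↔ fits (ω v) (b v) β e a)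
  | .inr (s, v, β), .inr (s', v', β') =>
      ((s = s' ∧ v = v') ∧ garc β β') ∨ nenc s v < nenc s' v'

theorem two_ne (h2 : p ≠ 2) : (2 : ZMod p) ≠ 0 := by
  intro h
  have h1 : ((2 : ℕ) : ZMod p) = 0 := by exact_mod_cast h
  rw [ZMod.natCast_eq_zero_iff] at h1
  have h3 := Nat.le_of_dvd (by norm_num) h1
  have := hp.out.two_le
  omega

theorem no_two {J : Type} (h2 : p ≠ 2) (a : J → ZMod p) (h : a + a = 0) : a = 0 := by
  funext j
  have h1 : a j + a j = 0 := congrFun h j
  rw [← two_mul] at h1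
  exact (mul_eq_zero.1 h1).resolve_left (two_ne h2)

theorem odd_p (h2 : p ≠ 2) : p % 2 = 1 :=
  (hp.out.eq_two_or_odd).resolve_left h2

theorem three_le (h2 : p ≠ 2) : 3 ≤ p := by
  have := hp.out.two_le
  omega

theorem arc_tournament (h2 : p ≠ 2) (ω : Fin m → Row (ZMod p) N) (b : Fin m → ZMod p) :
    IsTournament (arc ω b) := by
  classical
  rintro (⟨e, a⟩ | ⟨s, v, β⟩) (⟨e', a'⟩ | ⟨s', v', β'⟩)
  · constructor
    · rintro (⟨rfl, h⟩ | h) (⟨h', h''⟩ | h')
      · exact rot_asymm h h''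
      · exact lt_irrefl _ h'
      · rw [h'] at h
        exact lt_irrefl _ h
      · exact lt_asymm h h'
    · intro h
      by_cases he : e = e'
      · subst he
        have ha : a ≠ a' := fun h' => h (by rw [h'])
        rcases rot_total (odd_p h2) ha with h' | h'
        · exact Or.inl (Or.inl ⟨rfl, h'⟩)
        · exact Or.inr (Or.inl ⟨rfl, h'⟩)
      · have h' : venc e ≠ venc e' := fun h'' => he (venc_inj h'')
        rcases lt_or_gt_of_ne h' with h'' | h''
        · exact Or.inl (Or.inr h'')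
        · exact Or.inr (Or.inr h'')
  · show ((s' = true ↔ ¬ fits (ω v') (b v') β' e a) → ¬ (s' = true ↔ fits (ω v') (b v') β' e a)) ∧
      (_ → (s' = true ↔ ¬ fits (ω v') (b v') β' e a) ∨ (s' = true ↔ fits (ω v') (b v') β' e a))
    tauto
  · show ((s = true ↔ fits (ω v) (b v) β e' a') → ¬ (s = true ↔ ¬ fits (ω v) (b v) β e' a')) ∧
      (_ → (s = true ↔ fits (ω v) (b v) β e' a') ∨ (s = true ↔ ¬ fits (ω v) (b v) β e' a'))
    tauto
  · constructor
    · rintro (⟨⟨rfl, rfl⟩, h⟩ | h) (⟨⟨h1, h1'⟩, h''⟩ | h')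
      · exact garc_asymm h h''
      · exact lt_irrefl _ h'
      · rw [h1, h1'] at h
        exact lt_irrefl _ h
      · exact lt_asymm h h'
    · intro h
      by_cases he : s = s' ∧ v = v'
      · obtain ⟨rfl, rfl⟩ := he
        have ha : β ≠ β' := fun h' => h (by rw [h'])
        rcases garc_total (no_two h2) ha with h' | h'
        · exact Or.inl (Or.inl ⟨⟨rfl, rfl⟩, h'⟩)
        · exact Or.inr (Or.inl ⟨⟨rfl, rfl⟩, h'⟩)
      · have h' : nenc s v ≠ nenc s' v' := fun h'' => he (nenc_inj h'')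
        rcases lt_or_gt_of_ne h' with h'' | h''
        · exact Or.inl (Or.inr h'')
        · exact Or.inr (Or.inr h'')

/-! ### Scores -/

variable (ω : Fin m → Row (ZMod p) N) (b : Fin m → ZMod p)

theorem tsg_vv (e e' : Fin 6 × Fin N) (a a' : ZMod p) :
    tsg (arc ω b) (.inl (e, a)) (.inl (e', a')) =
      if e = e' then tsg rot a a' else sgn (venc e) (venc e') := by
  classical
  unfold tsg
  by_cases he : e = e'
  · subst he
    rw [if_pos rfl]
    have h1 : ∀ x y : ZMod p, arc ω b (.inl (e, x)) (.inl (e, y)) = rot x y := by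
      intro x y
      refine propext ⟨?_, fun h => Or.inl ⟨rfl, h⟩⟩
      rintro (⟨_, h⟩ | h)
      · exact h
      · exact absurd h (lt_irrefl _)
    rw [h1, h1]
  · rw [if_neg he]
    have h1 : arc ω b (.inl (e, a)) (.inl (e', a')) = (venc e < venc e') := by
      refine propext ⟨?_, fun h => Or.inr h⟩
      rintro (⟨h, _⟩ | h)
      · exact absurd h he
      · exact h
    have h1' : arc ω b (.inl (e', a')) (.inl (e, a)) = (venc e' < venc e) := by
      refine propext ⟨?_, fun h => Or.inr h⟩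
      rintro (⟨h, _⟩ | h)
      · exact absurd h.symm he
      · exact h
    rw [h1, h1']
    unfold sgn
    have h2 : venc e ≠ venc e' := fun h'' => he (venc_inj h'')
    rcases lt_or_gt_of_ne h2 with h3 | h3
    · rw [if_pos h3, if_pos h3, if_neg (lt_asymm h3), sub_zero]
    · rw [if_neg (lt_asymm h3), if_neg (lt_asymm h3), if_pos h3, if_pos h3, zero_sub]

theorem tsg_nn (s s' : Bool) (v v' : Fin m) (β β' : Fin 5 → ZMod p) :
    tsg (arc ω b) (.inr (s, v, β)) (.inr (s', v', β')) =
      if s = s' ∧ v = v' then tsg garc β β' else sgn (nenc s v) (nenc s' v') := by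
  classical
  unfold tsg
  by_cases he : s = s' ∧ v = v'
  · obtain ⟨rfl, rfl⟩ := he
    rw [if_pos (⟨rfl, rfl⟩ : s = s ∧ v = v)]
    have h1 : ∀ x y : Fin 5 → ZMod p,
        arc ω b (.inr (s, v, x)) (.inr (s, v, y)) = garc x y := by
      intro x y
      refine propext ⟨?_, fun h => Or.inl ⟨⟨rfl, rfl⟩, h⟩⟩
      rintro (⟨_, h⟩ | h)
      · exact h
      · exact absurd h (lt_irrefl _)
    rw [h1, h1]
  · rw [if_neg he]
    have h1 : arc ω b (.inr (s, v, β)) (.inr (s', v', β')) = (nenc s v < nenc s' v') := by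
      refine propext ⟨?_, fun h => Or.inr h⟩
      rintro (⟨h, _⟩ | h)
      · exact absurd h he
      · exact h
    have h1' : arc ω b (.inr (s', v', β')) (.inr (s, v, β)) = (nenc s' v' < nenc s v) := by
      refine propext ⟨?_, fun h => Or.inr h⟩
      rintro (⟨⟨h, h'⟩, _⟩ | h)
      · exact absurd ⟨h.symm, h'.symm⟩ he
      · exact h
    rw [h1, h1']
    unfold sgn
    have h2 : nenc s v ≠ nenc s' v' := fun h'' => he (nenc_inj h'')
    rcases lt_or_gt_of_ne h2 with h3 | h3
    · rw [if_pos h3, if_pos h3, if_neg (lt_asymm h3), sub_zero]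
    · rw [if_neg (lt_asymm h3), if_neg (lt_asymm h3), if_pos h3, if_pos h3, zero_sub]

/-- The indicator of fitting. -/
noncomputable def fi (e : Fin 6 × Fin N) (a : ZMod p) (v : Fin m) (β : Fin 5 → ZMod p) : ℤ :=
  open Classical in if fits (ω v) (b v) β e a then 1 else 0

theorem tsg_nv (s : Bool) (v : Fin m) (β : Fin 5 → ZMod p) (e : Fin 6 × Fin N) (a : ZMod p) :
    tsg (arc ω b) (.inr (s, v, β)) (.inl (e, a)) =
      if s then 2 * fi ω b e a v β - 1 else 1 - 2 * fi ω b e a v β := by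
  classical
  unfold tsg fi
  have h1 : arc ω b (.inr (s, v, β)) (.inl (e, a)) = (s = true ↔ fits (ω v) (b v) β e a) := rfl
  have h2 : arc ω b (.inl (e, a)) (.inr (s, v, β)) = (s = true ↔ ¬ fits (ω v) (b v) β e a) := rfl
  rw [h1, h2]
  by_cases hf : fits (ω v) (b v) β e a
  · cases s <;> simp [hf]
  · cases s <;> simp [hf]

theorem tsg_vn (s : Bool) (v : Fin m) (β : Fin 5 → ZMod p) (e : Fin 6 × Fin N) (a : ZMod p) :
    tsg (arc ω b) (.inl (e, a)) (.inr (s, v, β)) =
      if s then 1 - 2 * fi ω b e a v β else 2 * fi ω b e a v β - 1 := by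
  classical
  unfold tsg fi
  have h1 : arc ω b (.inr (s, v, β)) (.inl (e, a)) = (s = true ↔ fits (ω v) (b v) β e a) := rfl
  have h2 : arc ω b (.inl (e, a)) (.inr (s, v, β)) = (s = true ↔ ¬ fits (ω v) (b v) β e a) := rfl
  rw [h1, h2]
  by_cases hf : fits (ω v) (b v) β e a
  · cases s <;> simp [hf]
  · cases s <;> simp [hf]

theorem sum_fi (v : Fin m) (β : Fin 5 → ZMod p) : ∑ x : (Fin 6 × Fin N) × ZMod p,
    fi ω b x.1 x.2 v β = 6 := by
  classical
  rw [Fintype.sum_prod_type]
  have h1 : ∀ e : Fin 6 × Fin N, ∑ a : ZMod p, fi ω b e a v β =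
      if (ω v).1 e.1 = e.2 then 1 else 0 := by
    intro e
    by_cases he : (ω v).1 e.1 = e.2
    · rw [if_pos he, Finset.sum_eq_single (nval (ω v) (b v) β e.1)]
      · exact if_pos ⟨he, rfl⟩
      · intro a _ ha
        exact if_neg fun h => ha h.2
      · intro h
        exact absurd (Finset.mem_univ _) h
    · rw [if_neg he]
      exact Finset.sum_eq_zero fun a _ => if_neg fun h => he h.1
  simp only [h1]
  rw [Fintype.sum_prod_type]
  have h2 : ∀ j : Fin 6, (∑ y : Fin N, if (ω v).1 j = y then (1 : ℤ) else 0) = 1 := by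
    intro j
    rw [Finset.sum_ite_eq, if_pos (Finset.mem_univ _)]
  simp only [h2]
  simp

theorem sc_var (e : Fin 6 × Fin N) (a : ZMod p) :
    sc (arc ω b) (.inl (e, a)) = p * (6 * N - 1 - 2 * (venc e : ℤ)) := by
  unfold sc
  rw [Fintype.sum_sum_type, Fintype.sum_prod_type (f := fun x => tsg (arc ω b) (.inl (e, a)) (.inr x)),
    Fintype.sum_bool]
  have h1 : ∑ y : Fin m × (Fin 5 → ZMod p), tsg (arc ω b) (.inl (e, a)) (.inr (true, y)) +
      ∑ y : Fin m × (Fin 5 → ZMod p), tsg (arc ω b) (.inl (e, a)) (.inr (false, y)) = 0 := by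
    rw [← Finset.sum_add_distrib]
    refine Finset.sum_eq_zero fun y _ => ?_
    rw [tsg_vn ω b true y.1 y.2, tsg_vn ω b false y.1 y.2]
    simp
  rw [h1, add_zero, Fintype.sum_prod_type]
  have h2 : ∀ e' : Fin 6 × Fin N, ∑ a' : ZMod p, tsg (arc ω b) (.inl (e, a)) (.inl (e', a')) =
      p * sgn (venc e) (venc e') := by
    intro e'
    simp only [tsg_vv]
    by_cases he : e = e'
    · subst he
      simp only [if_true]
      rw [sum_tsg_rot, sgn_self, mul_zero]
    · simp only [if_neg he]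
      rw [Finset.sum_const, Finset.card_univ, ZMod.card, nsmul_eq_mul]
  simp only [h2]
  rw [← Finset.mul_sum]
  congr 1
  rw [← Equiv.sum_comp (finProdFinEquiv (m := 6) (n := N)).symm]
  have h3 := sum_sgn (6 * N) (finProdFinEquiv e)
  have h4 : ∀ j : Fin (6 * N), venc (finProdFinEquiv.symm j) = (j : ℕ) := by
    intro j
    unfold venc
    rw [Equiv.apply_symm_apply]
  simp only [h4]
  rw [show (∑ i : Fin (6 * N), sgn (venc e) i) = _ from h3]
  unfold venc
  push_cast
  ring

theorem sum_nenc (c : ℕ) (hc : c < m + m) :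
    ∑ s : Bool, ∑ v : Fin m, sgn c (nenc s v) = 2 * m - 1 - 2 * c := by
  rw [Fintype.sum_bool]
  have h1 := sum_sgn (m + m) ⟨c, hc⟩
  rw [Fin.sum_univ_add] at h1
  have h2 : ∑ v : Fin m, sgn c (nenc true v) + ∑ v : Fin m, sgn c (nenc false v) =
      (∑ i : Fin m, sgn (⟨c, hc⟩ : Fin (m + m)) (Fin.castAdd m i : Fin (m + m)) +
      ∑ i : Fin m, sgn (⟨c, hc⟩ : Fin (m + m)) (Fin.natAdd m i : Fin (m + m))) := by
    rw [add_comm]
    rfl
  rw [h2, h1]
  push_cast
  ring

theorem nenc_lt (s : Bool) (v : Fin m) : nenc s v < m + m := by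
  unfold nenc
  have := v.isLt
  split_ifs <;> omega

theorem sc_node (s : Bool) (v : Fin m) (β : Fin 5 → ZMod p) :
    sc (arc ω b) (.inr (s, v, β)) =
      (if s then (12 - 6 * (N : ℤ) * (p : ℤ)) else (6 * (N : ℤ) * (p : ℤ) - 12)) +
        (p : ℤ) ^ 5 * (2 * m - 1 - 2 * (nenc s v : ℤ)) := by
  unfold sc
  rw [Fintype.sum_sum_type]
  congr 1
  · have h1 := sum_fi ω b v β
    have h2 : ∑ _x : (Fin 6 × Fin N) × ZMod p, (1 : ℤ) = 6 * N * p := by
      rw [Finset.sum_const, Finset.card_univ, Fintype.card_prod, Fintype.card_prod,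
        Fintype.card_fin, Fintype.card_fin, ZMod.card, nsmul_eq_mul, mul_one]
      push_cast
      ring
    cases s
    · have h3 : ∀ x : (Fin 6 × Fin N) × ZMod p, tsg (arc ω b) (.inr (false, v, β)) (.inl x) =
          1 - 2 * fi ω b x.1 x.2 v β := fun x => tsg_nv ω b false v β x.1 x.2
      simp only [h3, Bool.false_eq_true, if_false]
      rw [Finset.sum_sub_distrib, ← Finset.mul_sum, h1, h2]
      ring
    · have h3 : ∀ x : (Fin 6 × Fin N) × ZMod p, tsg (arc ω b) (.inr (true, v, β)) (.inl x) =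
          2 * fi ω b x.1 x.2 v β - 1 := fun x => tsg_nv ω b true v β x.1 x.2
      simp only [h3, if_true]
      rw [Finset.sum_sub_distrib, ← Finset.mul_sum, h1, h2]
      ring
  · rw [Fintype.sum_prod_type]
    have h1 : ∀ s' : Bool, ∑ y : Fin m × (Fin 5 → ZMod p),
        tsg (arc ω b) (.inr (s, v, β)) (.inr (s', y)) =
        ∑ v' : Fin m, (p : ℤ) ^ 5 * sgn (nenc s v) (nenc s' v') := by
      intro s'
      rw [Fintype.sum_prod_type]
      refine Finset.sum_congr rfl fun v' _ => ?_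
      simp only [tsg_nn]
      by_cases he : s = s' ∧ v = v'
      · obtain ⟨rfl, rfl⟩ := he
        simp only [and_self, if_true]
        rw [sum_tsg_garc, sgn_self, mul_zero]
      · simp only [if_neg he]
        rw [Finset.sum_const, Finset.card_univ, Fintype.card_fun, ZMod.card, Fintype.card_fin,
          nsmul_eq_mul, Nat.cast_pow]
    simp only [h1, ← Finset.mul_sum]
    rw [sum_nenc _ (nenc_lt s v)]

/-! ### Rigidity -/

/-- The class of a vertex. -/
def cls : Vt p N m → (Fin 6 × Fin N) ⊕ (Bool × Fin m)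
  | .inl x => .inl x.1
  | .inr x => .inr (x.1, x.2.1)

variable {ω b}

theorem var_node {e : Fin 6 × Fin N} {a : ZMod p} {s : Bool} {v : Fin m} {β : Fin 5 → ZMod p}
    {b' : Fin m → ZMod p} (h2 : p ≠ 2)
    (h : sc (arc ω b) (.inl (e, a)) = sc (arc ω b') (.inr (s, v, β))) : False := by
  rw [sc_var, sc_node] at h
  have hp3 : (3 : ℤ) ≤ p := by exact_mod_cast three_le h2
  have hP : (243 : ℤ) ≤ (p : ℤ) ^ 5 := by
    calc (243 : ℤ) = 3 ^ 5 := by norm_num
      _ ≤ _ := pow_le_pow_left₀ (by norm_num) hp3 5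
  obtain ⟨P, hPP⟩ : ∃ P : ℤ, P = (p : ℤ) ^ 5 := ⟨_, rfl⟩
  rw [← hPP] at h hP
  have he : venc e < 6 * N := (finProdFinEquiv e : Fin (6 * N)).isLt
  have he' : (venc e : ℤ) + 1 ≤ 6 * N := by exact_mod_cast he
  have he0 : (0 : ℤ) ≤ venc e := by positivity
  have hv := v.isLt
  have hv' : ((v : ℕ) : ℤ) + 1 ≤ m := by exact_mod_cast hv
  have hv0 : (0 : ℤ) ≤ (v : ℕ) := by positivity
  unfold nenc at h
  cases s
  · simp only [Bool.false_eq_true, if_false] at h
    have h3 : P * 1 ≤ P * (2 * m - 1 - 2 * ((v : ℕ) : ℤ)) :=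
      mul_le_mul_of_nonneg_left (by linarith) (by linarith)
    have h4 : (p : ℤ) * (6 * N - 1 - 2 * (venc e : ℤ)) ≤ p * (6 * N - 1) :=
      mul_le_mul_of_nonneg_left (by linarith) (by linarith)
    nlinarith
  · simp only [if_true] at h
    push_cast at h
    have h3 : P * (2 * m - 1 - 2 * (m + ((v : ℕ) : ℤ))) ≤ P * (-1) :=
      mul_le_mul_of_nonneg_left (by linarith) (by linarith)
    have h4 : (p : ℤ) * (-(6 * N) + 1) ≤ p * (6 * N - 1 - 2 * (venc e : ℤ)) :=
      mul_le_mul_of_nonneg_left (by linarith) (by linarith)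
    nlinarith

theorem cls_eq (h2 : p ≠ 2) {b' : Fin m → ZMod p} {u w : Vt p N m}
    (h : sc (arc ω b) u = sc (arc ω b') w) : cls u = cls w := by
  have hp3 : (3 : ℤ) ≤ p := by exact_mod_cast three_le h2
  rcases u with ⟨e, a⟩ | ⟨s, v, β⟩ <;> rcases w with ⟨e', a'⟩ | ⟨s', v', β'⟩
  · rw [sc_var, sc_var] at h
    have h1 := mul_left_cancel₀ (by linarith : (p : ℤ) ≠ 0) h
    have h3 : venc e = venc e' := by
      have : (venc e : ℤ) = venc e' := by linarith
      exact_mod_cast this
    exact congrArg Sum.inl (venc_inj h3)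
  · exact (var_node h2 h).elim
  · exact (var_node h2 h.symm).elim
  · rw [sc_node, sc_node] at h
    have hP : (243 : ℤ) ≤ (p : ℤ) ^ 5 := by
      calc (243 : ℤ) = 3 ^ 5 := by norm_num
        _ ≤ _ := pow_le_pow_left₀ (by norm_num) hp3 5
    obtain ⟨P, hPP⟩ : ∃ P : ℤ, P = (p : ℤ) ^ 5 := ⟨_, rfl⟩
    rw [← hPP] at h hP
    have hN : 0 ≤ (6 * (N : ℤ) * (p : ℤ)) := by positivity
    obtain ⟨Y, hY⟩ : ∃ Y : ℤ, Y = 6 * (N : ℤ) * (p : ℤ) := ⟨_, rfl⟩
    rw [← hY] at h hN
    have hv := v.isLt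
    have hv1 : ((v : ℕ) : ℤ) + 1 ≤ m := by exact_mod_cast hv
    have hv0 : (0 : ℤ) ≤ (v : ℕ) := by positivity
    have hv' := v'.isLt
    have hv1' : ((v' : ℕ) : ℤ) + 1 ≤ m := by exact_mod_cast hv'
    have hv0' : (0 : ℤ) ≤ (v' : ℕ) := by positivity
    have key : nenc s v = nenc s' v' := by
      cases s <;> cases s'
      · simp only [Bool.false_eq_true, if_false] at h
        have h3 : P * (2 * m - 1 - 2 * (nenc false v : ℤ)) =
          P * (2 * m - 1 - 2 * (nenc false v' : ℤ)) := by linarith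
        have h4 := mul_left_cancel₀ (by linarith : P ≠ 0) h3
        have : (nenc false v : ℤ) = nenc false v' := by linarith
        exact_mod_cast this
      · exfalso
        unfold nenc at h
        simp only [Bool.false_eq_true, if_false, if_true] at h
        push_cast at h
        have h3 : P * 1 ≤ P * (2 * m - 1 - 2 * ((v : ℕ) : ℤ)) :=
          mul_le_mul_of_nonneg_left (by linarith) (by linarith)
        have h4 : P * (2 * m - 1 - 2 * (m + ((v' : ℕ) : ℤ))) ≤ P * (-1) :=
          mul_le_mul_of_nonneg_left (by linarith) (by linarith)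
        linarith
      · exfalso
        unfold nenc at h
        simp only [Bool.false_eq_true, if_false, if_true] at h
        push_cast at h
        have h3 : P * 1 ≤ P * (2 * m - 1 - 2 * ((v' : ℕ) : ℤ)) :=
          mul_le_mul_of_nonneg_left (by linarith) (by linarith)
        have h4 : P * (2 * m - 1 - 2 * (m + ((v : ℕ) : ℤ))) ≤ P * (-1) :=
          mul_le_mul_of_nonneg_left (by linarith) (by linarith)
        linarith
      · simp only [if_true] at h
        have h3 : P * (2 * m - 1 - 2 * (nenc true v : ℤ)) =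
          P * (2 * m - 1 - 2 * (nenc true v' : ℤ)) := by linarith
        have h4 := mul_left_cancel₀ (by linarith : P ≠ 0) h3
        have : (nenc true v : ℤ) = nenc true v' := by linarith
        exact_mod_cast this
    obtain ⟨h5, h6⟩ := nenc_inj key
    subst h5 h6
    rfl

/-- The isomorphisms are shifts. -/
theorem iso_shift (h2 : p ≠ 2) {b' : Fin m → ZMod p} (φ : Vt p N m ≃ Vt p N m)
    (h : ∀ x y, arc ω b x y ↔ arc ω b' (φ x) (φ y)) :
    ∃ t : Fin 6 × Fin N → ZMod p, (∀ e a, φ (.inl (e, a)) = .inl (e, a + t e)) ∧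
      (∀ s v β, φ (.inr (s, v, β)) = .inr (s, v, fun i => β i + t (i.succ, (ω v).1 i.succ))) ∧
      ∀ v, rval (ω v) t = b' v - b v := by
  have hcls : ∀ u, cls (φ u) = cls u := fun u => cls_eq h2 (sc_iso φ h u)
  have h1 : ∀ (e : Fin 6 × Fin N) (a : ZMod p), ∃ a', φ (.inl (e, a)) = .inl (e, a') := by
    intro e a
    have h3 := hcls (.inl (e, a))
    generalize φ (.inl (e, a)) = w at h3 ⊢
    rcases w with ⟨e', a'⟩ | ⟨s', v', β'⟩
    · have h4 : e' = e := Sum.inl_injective h3
      exact ⟨a', by rw [h4]⟩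
    · exact absurd h3 (by simp [cls])
  have h1' : ∀ (s : Bool) (v : Fin m) (β : Fin 5 → ZMod p),
      ∃ β', φ (.inr (s, v, β)) = .inr (s, v, β') := by
    intro s v β
    have h3 := hcls (.inr (s, v, β))
    generalize φ (.inr (s, v, β)) = w at h3 ⊢
    rcases w with ⟨e', a'⟩ | ⟨s', v', β'⟩
    · exact absurd h3 (by simp [cls])
    · have h4 : (s', v') = (s, v) := Sum.inr_injective h3
      obtain ⟨rfl, rfl⟩ := Prod.mk.inj h4
      exact ⟨β', rfl⟩
  choose g hg using h1
  choose n hn using h1'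
  have hginj : ∀ e, Function.Bijective (g e) := by
    intro e
    refine Finite.injective_iff_bijective.1 ?_
    intro a a' haa
    have h3 : φ (.inl (e, a)) = φ (.inl (e, a')) := by
      rw [hg, hg, haa]
    have h4 := Sum.inl_injective (φ.injective h3)
    exact (Prod.mk.inj h4).2
  have hgrot : ∀ e a a', rot a a' ↔ rot (g e a) (g e a') := by
    intro e a a'
    have h3 := h (.inl (e, a)) (.inl (e, a'))
    rw [hg, hg] at h3
    have h4 : ∀ (c : Fin m → ZMod p) (x y : ZMod p),
        arc ω c (.inl (e, x)) (.inl (e, y)) ↔ rot x y := by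
      intro c x y
      refine ⟨?_, fun h => Or.inl ⟨rfl, h⟩⟩
      rintro (⟨_, h⟩ | h)
      · exact h
      · exact absurd h (lt_irrefl _)
    rw [h4, h4] at h3
    exact h3
  have hgt : ∀ e a, g e a = a + g e 0 := fun e a =>
    rot_aut (odd_p h2) (three_le h2) (hginj e) (hgrot e) a
  have hval : ∀ s v β j, nval (ω v) (b' v) (n s v β) j =
      nval (ω v) (b v) β j + g (j, (ω v).1 j) 0 := by
    intro s v β j
    have h3 := h (.inr (s, v, β)) (.inl ((j, (ω v).1 j), nval (ω v) (b v) β j))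
    rw [hn, hg, hgt] at h3
    have h4 : (s = true ↔ fits (ω v) (b v) β (j, (ω v).1 j) (nval (ω v) (b v) β j)) ↔
      (s = true ↔ fits (ω v) (b' v) (n s v β) (j, (ω v).1 j)
        (nval (ω v) (b v) β j + g (j, (ω v).1 j) 0)) := h3
    have h5 : fits (ω v) (b v) β (j, (ω v).1 j) (nval (ω v) (b v) β j) := ⟨rfl, rfl⟩
    have h6 : fits (ω v) (b' v) (n s v β) (j, (ω v).1 j)
        (nval (ω v) (b v) β j + g (j, (ω v).1 j) 0) := by tauto
    exact h6.2.symm
  refine ⟨fun e => g e 0, fun e a => ?_, fun s v β => ?_, fun v => ?_⟩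
  · rw [hg, hgt]
  · rw [hn]
    congr 3
    funext i
    exact hval s v β i.succ
  · have h3 := nval_sum (ω v) (b' v) (n true v 0)
    have h4 := nval_sum (ω v) (b v) 0
    unfold rval
    calc ∑ j, ((ω v).2 j : ZMod p) * (fun e => g e 0) (j, (ω v).1 j) =
        ∑ j, (((ω v).2 j : ZMod p) * nval (ω v) (b' v) (n true v 0) j -
          ((ω v).2 j : ZMod p) * nval (ω v) (b v) 0 j) := by
          refine Finset.sum_congr rfl fun j _ => ?_
          rw [hval]
          ring
      _ = _ := by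
        rw [Finset.sum_sub_distrib, h3, h4]

theorem card_aut (h2 : p ≠ 2) :
    Nat.card {α : Vt p N m ≃ Vt p N m // ∀ x y, arc ω b (α x) (α y) ↔ arc ω b x y} ≤
      (Finset.univ.filter fun x : Fin 6 × Fin N → ZMod p => ∀ v, rval (ω v) x = 0).card := by
  classical
  have h1 : ∀ α : {α : Vt p N m ≃ Vt p N m // ∀ x y, arc ω b (α x) (α y) ↔ arc ω b x y},
      ∃ t : Fin 6 × Fin N → ZMod p, (∀ e a, α.1 (.inl (e, a)) = .inl (e, a + t e)) ∧
      (∀ s v β, α.1 (.inr (s, v, β)) = .inr (s, v, fun i => β i + t (i.succ, (ω v).1 i.succ))) ∧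
      ∀ v, rval (ω v) t = b v - b v := fun α => iso_shift h2 α.1 fun x y => (α.2 x y).symm
  choose t ht1 ht2 ht3 using h1
  rw [← Fintype.card_coe, ← Nat.card_eq_fintype_card]
  refine Nat.card_le_card_of_injective (fun α => ⟨t α, ?_⟩) ?_
  · rw [Finset.mem_filter]
    refine ⟨Finset.mem_univ _, fun v => ?_⟩
    rw [ht3, sub_self]
  · intro α α' h
    have h3 : t α = t α' := congrArg Subtype.val h
    refine Subtype.ext (Equiv.ext fun u => ?_)
    rcases u with ⟨e, a⟩ | ⟨s, v, β⟩
    · rw [ht1, ht1, h3]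
    · rw [ht2, ht2, h3]

end Pool.Agent.Y598.IM.Sp
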