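import Pool.Agent.Y598.IM.Fam
import Pool.Agent.Y598.IM.Sp.Tour

/-!
# Individualization-refinement with the invertible-map test on tournaments
-/

set_option autoImplicit false
set_option linter.unusedSectionVars false

namespace Pool.Agent.Y598.IM.Sp

open Finset Module

variable {p : ℕ} [hp : Fact p.Prime] {N m : ℕ}

/-- The vectors which vanish on `W`. -/
def NV (W : Finset (Fin 6 × Fin N)) : AddSubgroup (Fin 6 × Fin N → ZMod p) where
  carrier := {M | ∀ w ∈ W, M w = 0}
  add_mem' := by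
    intro M M' h h' w hw
    rw [Pi.add_apply, h w hw, h' w hw, add_zero]
  zero_mem' := fun w _ => rfl
  neg_mem' := by
    intro M h w hw
    rw [Pi.neg_apply, h w hw, neg_zero]

/-- The homogeneous local solutions. -/
def DV (n : ℕ) (ω : Fin m → Row (ZMod p) N) (W : Finset (Fin 6 × Fin N)) :
    AddSubgroup (Fin 6 × Fin N → ZMod p) where
  carrier := {M | Good n (mat ω) 0 W M}
  add_mem' := by
    intro M M' h h'
    have := Good.add h h'
    rwa [add_zero] at this
  zero_mem' := good_zero W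
  neg_mem' := by
    intro M h
    have := Good.neg h
    rwa [neg_zero] at this

/-- The shift of the vertices. -/
def sh (ω : Fin m → Row (ZMod p) N) (M : Fin 6 × Fin N → ZMod p) : Vt p N m → Vt p N m
  | .inl (e, a) => .inl (e, a + M e)
  | .inr (s, v, β) => .inr (s, v, fun i => β i + M (i.succ, (ω v).1 i.succ))

theorem sh_zero (ω : Fin m → Row (ZMod p) N) (u : Vt p N m) : sh ω 0 u = u := by
  rcases u with ⟨e, a⟩ | ⟨s, v, β⟩
  · show Sum.inl (e, a + 0) = _
    rw [add_zero]
  · show Sum.inr (s, v, fun i => β i + 0) = _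
    simp only [add_zero]

theorem sh_add (ω : Fin m → Row (ZMod p) N) (M M' : Fin 6 × Fin N → ZMod p) (u : Vt p N m) :
    sh ω (M + M') u = sh ω M (sh ω M' u) := by
  rcases u with ⟨e, a⟩ | ⟨s, v, β⟩
  · show Sum.inl (e, a + (M e + M' e)) = Sum.inl (e, a + M' e + M e)
    congr 2
    ring
  · show Sum.inr (s, v, fun i => β i + (M (i.succ, (ω v).1 i.succ) + M' (i.succ, (ω v).1 i.succ))) =
      Sum.inr (s, v, fun i => β i + M' (i.succ, (ω v).1 i.succ) + M (i.succ, (ω v).1 i.succ))
    congr 3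
    funext i
    ring

/-- The shift as a permutation. -/
def shV (ω : Fin m → Row (ZMod p) N) (M : Fin 6 × Fin N → ZMod p) : Vt p N m ≃ Vt p N m where
  toFun := sh ω M
  invFun := sh ω (-M)
  left_inv u := by rw [← sh_add, neg_add_cancel, sh_zero]
  right_inv u := by rw [← sh_add, add_neg_cancel, sh_zero]

/-- The level of a vertex. -/
def lvV (ω : Fin m → Row (ZMod p) N) : Vt p N m → Finset (Fin 6 × Fin N)
  | .inl (e, _) => {e}
  | .inr (_, v, _) => Finset.univ.image fun i : Fin 5 => (i.succ, (ω v).1 i.succ)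

theorem sh_fits {n : ℕ} (hn : 0 < n) {ω : Fin m → Row (ZMod p) N} {b b' : Fin m → ZMod p}
    {e : Fin 6 × Fin N} {a : ZMod p} {s : Bool} {v : Fin m} {β : Fin 5 → ZMod p}
    {W : Finset (Fin 6 × Fin N)} {M : Fin 6 × Fin N → ZMod p}
    (hM : Good n (mat ω) (b' - b) W M)
    (h1 : lvV ω (.inl (e, a)) ⊆ W) (h2 : lvV ω (.inr (s, v, β)) ⊆ W) :
    fits (ω v) (b v) β e a ↔
      fits (ω v) (b' v) (fun i => β i + M (i.succ, (ω v).1 i.succ)) e (a + M e) := by
  unfold fits
  refine and_congr_right fun he => ?_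
  have he' : e = (e.1, (ω v).1 e.1) := Prod.ext rfl he.symm
  rw [nval_shift (ω v) (b v) (b' v) β M e.1, ← he', add_left_inj]
  intro h0
  have h3 := hM.eq hn v (by
    intro x hx
    by_contra hne
    have hx1 := mem_prt.1 (mat_ne_zero.1 hne)
    apply hx
    rcases Fin.eq_zero_or_eq_succ x.1 with hx0 | ⟨i, hi⟩
    · have : x = e := by
        rw [he']
        refine Prod.ext (hx0.trans h0.symm) ?_
        show x.2 = (ω v).1 e.1
        rw [← hx1, hx0, h0]
      rw [this]
      exact h1 (Finset.mem_singleton_self e)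
    · refine h2 (Finset.mem_image.2 ⟨i, Finset.mem_univ _, ?_⟩)
      rw [← hi, hx1])
  rw [mat_sum] at h3
  exact h3

/-- The family of the tournaments of a system. -/
noncomputable def tFam {n : ℕ} (hn : 0 < n) (ω : Fin m → Row (ZMod p) N)
    (hE : Expands n (mat ω)) :
    Fam (Fin 6 × Fin N → ZMod p) (Finset (Fin 6 × Fin N)) (Vt p N m) (Fin m → ZMod p) where
  N := NV
  D := DV n ω
  Sol b b' W := {M | Good n (mat ω) (b' - b) W M}
  size W := W.card
  K := n
  N_anti W W' h M hM w hw := hM w (h hw)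
  N_sup W W' M hM w hw := by
    rcases Finset.mem_union.1 hw with h | h
    · exact hM.1 w h
    · exact hM.2 w h
  N_bot := by
    rw [eq_top_iff]
    intro M _ w hw
    exact absurd hw (Finset.notMem_empty w)
  Sol_anti b b' W W' h M hM := Good.mono h hM
  sol_D b W M := by
    show Good n (mat ω) (b - b) W M ↔ Good n (mat ω) 0 W M
    rw [sub_self]
  neg_mem b b' W M hM := by
    have := Good.neg (show Good n (mat ω) (b' - b) W M from hM)
    rwa [neg_sub] at this
  add_mem b b' b'' W M M' hM hM' := by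
    have := Good.add (show Good n (mat ω) (b' - b) W M from hM)
      (show Good n (mat ω) (b'' - b') W M' from hM')
    have h1 : b' - b + (b'' - b') = b'' - b := by abel
    rwa [h1] at this
  size_bot := Finset.card_empty
  size_mono W W' h := Finset.card_le_card h
  size_sup W W' := Finset.card_union_le _ _
  bot_sol b b' := ⟨0, good_empty hE _ 0⟩
  extend b b' W W' hWW hW' M hM := by
    obtain ⟨M', hM', hag⟩ := Good.extend hE hW' hM
    refine ⟨M', hM', fun w hw => ?_⟩
    rw [Pi.sub_apply, hag w hw, sub_self]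
  act := shV ω
  act_zero u := sh_zero ω u
  act_add M M' u := sh_add ω M M' u
  lv := lvV ω
  lv_act M u := by rcases u with ⟨e, a⟩ | ⟨s, v, β⟩ <;> rfl
  fix M u hM := by
    rcases u with ⟨e, a⟩ | ⟨s, v, β⟩
    · show Sum.inl (e, a + M e) = _
      rw [hM e (Finset.mem_singleton_self e), add_zero]
    · show Sum.inr (s, v, fun i => β i + M (i.succ, (ω v).1 i.succ)) = _
      congr 3
      funext i
      rw [hM _ (Finset.mem_image.2 ⟨i, Finset.mem_univ _, rfl⟩), add_zero]
  faithful M u hM := by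
    rcases u with ⟨e, a⟩ | ⟨s, v, β⟩
    · intro w hw
      have h1 : a + M e = a := (Prod.mk.inj (Sum.inl_injective hM)).2
      rw [Finset.mem_singleton.1 hw]
      exact add_eq_left.1 h1
    · intro w hw
      obtain ⟨i, _, rfl⟩ := Finset.mem_image.1 hw
      have h1 : (fun i => β i + M (i.succ, (ω v).1 i.succ)) = β :=
        (Prod.mk.inj (Prod.mk.inj (Sum.inr_injective hM)).2).2
      exact add_eq_left.1 (congrFun h1 i)
  c := 5
  size_lv u := by
    rcases u with ⟨e, a⟩ | ⟨s, v, β⟩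
    · exact (Finset.card_singleton e).trans_le (by norm_num)
    · refine Finset.card_image_le.trans ?_
      rw [Finset.card_univ, Fintype.card_fin]
  G := arc ω
  G_inj := by
    intro b b' hbb
    funext v
    have h1 : ∀ c : Fin m → ZMod p, ∀ a : ZMod p,
        arc ω c (.inr (true, v, 0)) (.inl ((0, (ω v).1 0), a)) ↔
          a = nval (ω v) (c v) 0 0 := by
      intro c a
      show (true = true ↔ fits (ω v) (c v) 0 (0, (ω v).1 0) a) ↔ _
      unfold fits
      simp
    have h2 := h1 b (nval (ω v) (b v) 0 0)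
    have hbb' : arc ω b = arc ω b' := hbb
    rw [hbb', h1] at h2
    have h3 : nval (ω v) (b v) 0 0 = nval (ω v) (b' v) 0 0 := h2.2 rfl
    have h4 := nval_sum (ω v) (b v) 0
    have h5 := nval_sum (ω v) (b' v) 0
    rw [Fin.sum_univ_succ] at h4 h5
    rw [← h4, ← h5, h3]
    rfl
  adj b b' u u' M hM := by
    have hM' : Good n (mat ω) (b' - b) (lvV ω u ∪ lvV ω u') M := hM
    rcases u with ⟨e, a⟩ | ⟨s, v, β⟩ <;> rcases u' with ⟨e', a'⟩ | ⟨s', v', β'⟩
    · show ((e = e' ∧ rot a a') ∨ venc e < venc e') ↔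
        ((e = e' ∧ rot (a + M e) (a' + M e')) ∨ venc e < venc e')
      refine or_congr (and_congr_right fun he => ?_) Iff.rfl
      rw [he, rot_add]
    · show (s' = true ↔ ¬ fits (ω v') (b v') β' e a) ↔
        (s' = true ↔ ¬ fits (ω v') (b' v')
          (fun i => β' i + M (i.succ, (ω v').1 i.succ)) e (a + M e))
      rw [sh_fits hn hM' (s := s') (β := β') (a := a) Finset.subset_union_left
        Finset.subset_union_right]
    · show (s = true ↔ fits (ω v) (b v) β e' a') ↔
        (s = true ↔ fits (ω v) (b' v)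
          (fun i => β i + M (i.succ, (ω v).1 i.succ)) e' (a' + M e'))
      rw [sh_fits hn hM' (s := s) (β := β) (a := a') Finset.subset_union_right
        Finset.subset_union_left]
    · show (((s = s' ∧ v = v') ∧ garc β β') ∨ nenc s v < nenc s' v') ↔
        (((s = s' ∧ v = v') ∧ garc (fun i => β i + M (i.succ, (ω v).1 i.succ))
          (fun i => β' i + M (i.succ, (ω v').1 i.succ))) ∨ nenc s v < nenc s' v')
      refine or_congr (and_congr_right fun he => ?_) Iff.rfl
      obtain ⟨_, rfl⟩ := he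
      exact (garc_add β β' fun i => M (i.succ, (ω v).1 i.succ)).symm

theorem tFam_moving {n : ℕ} (hn : 0 < n) (ω : Fin m → Row (ZMod p) N)
    (hE : Expands n (mat ω)) (hc : n ≤ 6 * N) {s0 : ℕ} (hs : 2 * s0 + 1 ≤ n)
    (W : Finset (Fin 6 × Fin N)) (hW : W.card ≤ s0) :
    ∃ (u : Vt p N m) (M : Fin 6 × Fin N → ZMod p),
      M ∈ (tFam hn ω hE).D (W ⊔ (tFam hn ω hE).lv u) ∧ M ∈ (tFam hn ω hE).N W ∧
      (tFam hn ω hE).act M u ≠ u := by
  obtain ⟨e, M, hM, hM0, hMe⟩ := exists_moving hE (by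
    rw [Fintype.card_prod, Fintype.card_fin, Fintype.card_fin]
    exact hc) (by
    rw [ZMod.card]
    exact hp.out.two_le) W (by omega)
  refine ⟨.inl (e, 0), M, hM, hM0, ?_⟩
  intro h
  have h1 : (0 : ZMod p) + M e = 0 := (Prod.mk.inj (Sum.inl_injective h)).2
  rw [zero_add] at h1
  exact hMe h1

/-- The main theorem for tournaments. -/
theorem t_main (p : ℕ) (hp : p.Prime) (h2 : p ≠ 2) (k : ℕ) (hk : 1 ≤ k) :
    ∃ (V : Type) (_ : Fintype V) (T T' : V → V → Prop), IsTournament T ∧ IsTournament T' ∧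
      Fintype.card V ≤ (6 * p + 24 * (2 * p + 60) * p ^ 5) * (2 ^ 36 * (2 * p + 60)) * k ∧
      (¬ ∃ φ : V ≃ V, ∀ x y, T x y ↔ T' (φ x) (φ y)) ∧
      ∀ X Y : V → V → Prop, (X = T ∨ X = T') → (Y = T ∨ Y = T') →
        ∀ j : ℕ, 1 ≤ j → j ≤ k →
          Indist p j X [] Y [] ∧
          ∀ sel : (V → V → Prop) → List V → Set V, IsSelector p j sel →
            ∀ (v : List V) (E : Finset (List V)), IsLeaf sel X v →
              Explores p j sel X v Y E → 2 ^ k ≤ E.card := by
  classical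
  have : Fact p.Prime := ⟨hp⟩
  obtain ⟨c, hc⟩ : ∃ c : ℕ, c = 2 * p + 60 := ⟨_, rfl⟩
  obtain ⟨N, hN⟩ : ∃ N : ℕ, N = 2 ^ 36 * c * k := ⟨_, rfl⟩
  obtain ⟨m, hm⟩ : ∃ m : ℕ, m = 12 * c * N := ⟨_, rfl⟩
  have hc1 : 1 ≤ c := by omega
  have hp2 := hp.two_le
  have hck : 6 * N * Fintype.card (ZMod p) ≤ k * 2 ^ c := by
    rw [ZMod.card, hN]
    have h3 : p ≤ 2 ^ p := Nat.lt_two_pow_self.le
    have h4 : c ≤ 2 ^ 5 * 2 ^ p := by
      rw [hc]
      have : 60 ≤ 15 * 2 ^ p := by
        calc 60 = 15 * 2 ^ 2 := by norm_num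
          _ ≤ _ := Nat.mul_le_mul_left _ (Nat.pow_le_pow_right (by norm_num) hp2)
      omega
    calc 6 * (2 ^ 36 * c * k) * p = k * (6 * 2 ^ 36 * c * p) := by ring
      _ ≤ k * (6 * 2 ^ 36 * (2 ^ 5 * 2 ^ p) * 2 ^ p) := by
        refine Nat.mul_le_mul_left _ (Nat.mul_le_mul (Nat.mul_le_mul_left _ h4) h3)
      _ ≤ k * (2 ^ 60 * (2 ^ p * 2 ^ p)) := by
        refine Nat.mul_le_mul_left _ ?_
        calc 6 * 2 ^ 36 * (2 ^ 5 * 2 ^ p) * 2 ^ p = (6 * 2 ^ 36 * 2 ^ 5) * (2 ^ p * 2 ^ p) := by ring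
          _ ≤ _ := Nat.mul_le_mul_right _ (by norm_num)
      _ = k * 2 ^ c := by
        rw [← pow_add, ← pow_add, hc]
        congr 2
        omega
  obtain ⟨ω, hE, hker⟩ := exists_system (F := ZMod p) (two_ne h2) hN hm hc1 hk hck
  have hN1 : 1000 * k ≤ N := by
    rw [hN]
    calc 1000 * k ≤ (2 ^ 36 * c) * k := Nat.mul_le_mul_right _ (by
          calc 1000 ≤ 2 ^ 36 * 1 := by norm_num
            _ ≤ 2 ^ 36 * c := Nat.mul_le_mul_left _ hc1)
      _ = _ := rfl
  -- a right hand side without solution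
  have hb : ∃ b : Fin m → ZMod p, ∀ x : Fin 6 × Fin N → ZMod p, ∃ v, rval (ω v) x ≠ b v := by
    by_contra hcon
    push Not at hcon
    have hsurj : Function.Surjective
        (fun (x : Fin 6 × Fin N → ZMod p) (v : Fin m) => rval (ω v) x) := by
      intro b
      obtain ⟨x, hx⟩ := hcon b
      exact ⟨x, funext hx⟩
    have h3 := Fintype.card_le_of_surjective _ hsurj
    rw [Fintype.card_fun, Fintype.card_fun, Fintype.card_fin, Fintype.card_prod, Fintype.card_fin,
      Fintype.card_fin, ZMod.card] at h3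
    have h4 := (Nat.pow_le_pow_iff_right (by omega : 1 < p)).1 h3
    have h5 : 12 * N ≤ m := by
      rw [hm]
      calc 12 * N = 12 * 1 * N := by ring
        _ ≤ 12 * c * N := Nat.mul_le_mul_right _ (Nat.mul_le_mul_left _ hc1)
    omega
  obtain ⟨b, hb⟩ := hb
  have hn0 : 0 < 100 * k := by omega
  let F := tFam hn0 ω hE
  have hX : ∀ (K : Type) [Field K], (p : K) ≠ 0 →
      (Fintype.card (Fin 6 × Fin N → ZMod p) : K) ≠ 0 := by
    intro K _ h3
    rw [Fintype.card_fun, ZMod.card, Nat.cast_pow]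
    exact pow_ne_zero _ h3
  refine ⟨Vt p N m, inferInstance, arc ω 0, arc ω b, arc_tournament h2 ω 0, arc_tournament h2 ω b,
    ?_, ?_, ?_⟩
  · rw [Fintype.card_sum, Fintype.card_prod, Fintype.card_prod, Fintype.card_prod,
      Fintype.card_prod, Fintype.card_fun, Fintype.card_fin, Fintype.card_fin, Fintype.card_fin,
      Fintype.card_fin, ZMod.card, Fintype.card_bool, hm, hN, hc]
    apply le_of_eq
    ring
  · rintro ⟨φ, hφ⟩
    obtain ⟨t, _, _, ht⟩ := iso_shift h2 φ hφ
    obtain ⟨v, hv⟩ := hb t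
    apply hv
    rw [ht, Pi.zero_apply, sub_zero]
  · intro X Y hXX hYY j hj1 hjk
    have hX' : ∃ β1 : Fin m → ZMod p, X = arc ω β1 := by
      rcases hXX with h | h
      · exact ⟨_, h⟩
      · exact ⟨_, h⟩
    have hY' : ∃ β2 : Fin m → ZMod p, Y = arc ω β2 := by
      rcases hYY with h | h
      · exact ⟨_, h⟩
      · exact ⟨_, h⟩
    obtain ⟨β1, rfl⟩ := hX'
    obtain ⟨β2, rfl⟩ := hY'
    have hs : 49 * k + 4 * (F.c * j) ≤ F.K := by
      show 49 * k + 4 * (5 * j) ≤ 100 * k
      omega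
    constructor
    · obtain ⟨M, hM⟩ := F.bot_sol β1 β2
      exact F.indist (p := p) (k := j) hX hs (v := []) (M := M) (by
        show F.size ⊥ ≤ 49 * k
        rw [F.size_bot]
        exact Nat.zero_le _) hM
    intro sel hsel v E hleaf hex
    have h1 := F.explored (p := p) (k := j) hX hs hj1 hsel
      (fun W hW => tFam_moving hn0 ω hE (by omega) (s0 := 49 * k) (by omega) W hW) (40 * k) (by
        show 40 * k + 5 ≤ 49 * k
        omega) β1 β2 (3 ^ (20 * k)) (by
        intro W hW1 hW2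
        have hW1' : 40 * k ≤ W.card := hW1
        have hW2' : W.card ≤ 49 * k := hW2
        obtain ⟨𝓜, hg, hsep, hcard⟩ := many_good hE (β2 - β1) W (by omega)
        refine ⟨𝓜, hg, ?_, ?_⟩
        · intro M hM M' hM' hMM
          refine hsep M hM M' hM' fun w hw => ?_
          have := hMM w hw
          rw [Pi.sub_apply] at this
          exact sub_eq_zero.1 this
        · refine le_trans ?_ hcard
          rw [ZMod.card]
          calc 3 ^ (20 * k) ≤ p ^ (20 * k) := Nat.pow_le_pow_left (three_le h2) _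
            _ ≤ _ := Nat.pow_le_pow_right (by omega) (by omega)) hleaf hex
    have h3 : Nat.card {α : Vt p N m ≃ Vt p N m //
        ∀ x y, F.G β2 (α x) (α y) ↔ F.G β2 x y} ≤ 3 ^ (2 * k) :=
      (card_aut (ω := ω) (b := β2) h2).trans hker
    have h4 : 3 ^ (20 * k) ≤ 3 ^ (2 * k) * E.card := h1.trans (Nat.mul_le_mul_right _ h3)
    have h5 : 3 ^ (20 * k) = 3 ^ (2 * k) * 3 ^ (18 * k) := by
      rw [← pow_add]
      congr 1
      omega
    rw [h5] at h4
    have h6 := Nat.le_of_mul_le_mul_left h4 (by positivity)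
    refine le_trans ?_ h6
    calc 2 ^ k ≤ 3 ^ k := Nat.pow_le_pow_left (by norm_num) k
      _ ≤ 3 ^ (18 * k) := Nat.pow_le_pow_right (by norm_num) (by omega)

end Pool.Agent.Y598.IM.Sp
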